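import Pool.Agent.Helper34.FB.Core

/-!
# Elimination for multilinear box averages: the calculus
-/

set_option autoImplicit false
set_option linter.unusedSectionVars false

open MeasureTheory Filter Topology

noncomputable section

namespace Pool.Agent.Helper34.FB

open Pool.Agent.W761.Box (bx bxc BM Good1 bx_add bx_mul bx_sum bx_mono bx_abs bx_const_le
  bx_nonneg dz orb bxc_add bxc_sub bxc_mul bxc_norm bxc_bound int_lim_le' bx_bound bxc_of_bx)

variable {X : Type*} [MeasurableSpace X] {μ : Measure X} [IsProbabilityMeasure μ]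
variable {G : Type*} [Group G] {k : ℕ} {Φ : G →* Equiv.Perm X}

/-- A slot: a sequence in the group, and a subgroup under which the function is invariant. -/
structure Slot (G : Type*) [Group G] (k : ℕ) where
  S : (Fin k → ℤ) → G
  Γ : Subgroup G

/-- the product of the factors -/
def pr (Φ : G →* Equiv.Perm X) (F : Multiset (Slot G k × (X → ℂ))) (m : Fin k → ℤ) (x : X) : ℂ :=
  (F.map fun p => p.2 (Φ (p.1.S m) x)).prod

/-- admissible function in a slot -/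
def Adm (μ : Measure X) (Φ : G →* Equiv.Perm X) (p : Slot G k × (X → ℂ)) : Prop :=
  BM p.2 ∧ ∀ g ∈ p.1.Γ, (fun x => p.2 (Φ g x)) =ᵐ[μ] p.2

/-- convergence for all admissible functions -/
def Conv (μ : Measure X) (Φ : G →* Equiv.Perm X) (s : Multiset (Slot G k)) : Prop :=
  ∀ F : Multiset (Slot G k × (X → ℂ)), F.map Prod.fst = s → (∀ p ∈ F, Adm μ Φ p) →
    ∀ᵐ x ∂μ, ∃ L : ℂ, Tendsto (fun M => avZ k M fun m => pr Φ F m x) atTop (𝓝 L)

/-- the stabiliser of a function -/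
def stab (μ : Measure X) (Φ : G →* Equiv.Perm X) (hΦ : ∀ g, MeasurePreserving (Φ g) μ μ)
    (f : X → ℂ) : Subgroup G where
  carrier := {g | (fun x => f (Φ g x)) =ᵐ[μ] f}
  one_mem' := by
    show (fun x => f (Φ 1 x)) =ᵐ[μ] f
    simp
  mul_mem' := by
    intro a b ha hb
    have h1 : ∀ᵐ x ∂μ, f (Φ a (Φ b x)) = f (Φ b x) := (hΦ b).quasiMeasurePreserving.ae ha
    show ∀ᵐ x ∂μ, f (Φ (a * b) x) = f x
    filter_upwards [h1, hb] with x hx1 hx2
    rw [map_mul, Equiv.Perm.mul_apply, hx1]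
    exact hx2
  inv_mem' := by
    intro a ha
    have h1 : ∀ᵐ x ∂μ, f (Φ a (Φ a⁻¹ x)) = f (Φ a⁻¹ x) :=
      (hΦ a⁻¹).quasiMeasurePreserving.ae ha
    show ∀ᵐ x ∂μ, f (Φ a⁻¹ x) = f x
    filter_upwards [h1] with x hx1
    rw [← hx1, ← Equiv.Perm.mul_apply, ← map_mul]
    simp

theorem split {F : Multiset (Slot G k × (X → ℂ))} {a : Slot G k} {s : Multiset (Slot G k)}
    (h : F.map Prod.fst = a ::ₘ s) : ∃ f F', F = (a, f) ::ₘ F' ∧ F'.map Prod.fst = s := by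
  have h1 : a ∈ F.map Prod.fst := by
    rw [h]
    exact Multiset.mem_cons_self _ _
  obtain ⟨p, hp, hpa⟩ := Multiset.mem_map.1 h1
  obtain ⟨F', hF'⟩ := Multiset.exists_cons_of_mem hp
  refine ⟨p.2, F', ?_, ?_⟩
  · rw [hF', ← hpa]
  · rw [hF', Multiset.map_cons, hpa] at h
    exact (Multiset.cons_inj_right a).1 h

theorem pr_cons (p : Slot G k × (X → ℂ)) (F : Multiset (Slot G k × (X → ℂ))) (m : Fin k → ℤ)
    (x : X) : pr Φ (p ::ₘ F) m x = p.2 (Φ (p.1.S m) x) * pr Φ F m x := by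
  rw [pr, Multiset.map_cons, Multiset.prod_cons, pr]

theorem pr_bound {F : Multiset (Slot G k × (X → ℂ))} (hF : ∀ p ∈ F, Adm μ Φ p) :
    ∃ C : ℝ, ∀ m x, ‖pr Φ F m x‖ ≤ C := by
  induction F using Multiset.induction_on with
  | empty => exact ⟨1, fun m x => by simp [pr]⟩
  | cons p F ih =>
    obtain ⟨C, hC⟩ := ih fun q hq => hF q (Multiset.mem_cons_of_mem hq)
    obtain ⟨⟨_, D, hD⟩, _⟩ := hF p (Multiset.mem_cons_self _ _)
    refine ⟨|D| * |C|, fun m x => ?_⟩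
    rw [pr_cons, norm_mul]
    exact mul_le_mul ((hD _).trans (le_abs_self _)) ((hC _ _).trans (le_abs_self _))
      (norm_nonneg _) (abs_nonneg _)

/-- the value does not change under elements of the subgroup -/
theorem adm_eq (hΦ : ∀ g, MeasurePreserving (Φ g) μ μ) {p : Slot G k × (X → ℂ)}
    (hp : Adm μ Φ p) {g g' : G} (h : g' * g⁻¹ ∈ p.1.Γ) :
    ∀ᵐ x ∂μ, p.2 (Φ g' x) = p.2 (Φ g x) := by
  have h1 : ∀ᵐ x ∂μ, p.2 (Φ (g' * g⁻¹) (Φ g x)) = p.2 (Φ g x) :=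
    (hΦ g).quasiMeasurePreserving.ae (hp.2 _ h)
  filter_upwards [h1] with x hx
  rw [← hx, ← Equiv.Perm.mul_apply, ← map_mul, inv_mul_cancel_right]

theorem pr_shift (hΦ : ∀ g, MeasurePreserving (Φ g) μ μ) {v : Fin k → ℤ}
    {F : Multiset (Slot G k × (X → ℂ))} (hF : ∀ p ∈ F, Adm μ Φ p)
    (hv : ∀ p ∈ F, ∀ m, p.1.S (m + v) * (p.1.S m)⁻¹ ∈ p.1.Γ) :
    ∀ᵐ x ∂μ, ∀ m, pr Φ F (m + v) x = pr Φ F m x := by
  induction F using Multiset.induction_on with
  | empty => exact Eventually.of_forall fun x m => by simp [pr]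
  | cons p F ih =>
    have h1 := ih (fun q hq => hF q (Multiset.mem_cons_of_mem hq))
      fun q hq => hv q (Multiset.mem_cons_of_mem hq)
    have h2 : ∀ᵐ x ∂μ, ∀ m, p.2 (Φ (p.1.S (m + v)) x) = p.2 (Φ (p.1.S m) x) :=
      ae_all_iff.2 fun m => adm_eq hΦ (hF p (Multiset.mem_cons_self _ _))
        (hv p (Multiset.mem_cons_self _ _) m)
    filter_upwards [h1, h2] with x hx1 hx2 m
    rw [pr_cons, pr_cons, hx1, hx2]

theorem avZ_one : Tendsto (fun M : Fin k → ℕ => avZ k M fun _ => 1) atTop (𝓝 1) := by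
  refine tendsto_const_nhds.congr' ?_
  filter_upwards [eventually_ge_atTop (fun _ => 1 : Fin k → ℕ)] with M hM
  unfold avZ bxc
  rw [Finset.sum_const, Fintype.card_piFinset]
  simp only [Finset.card_range, nsmul_eq_mul, mul_one]
  push_cast
  rw [inv_mul_cancel₀]
  refine Finset.prod_ne_zero_iff.2 fun i _ => ?_
  have := hM i
  have h : M i ≠ 0 := by
    intro h0
    rw [h0] at this
    exact absurd this (by norm_num)
  exact_mod_cast h

theorem conv_nil : Conv μ Φ (0 : Multiset (Slot G k)) := by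
  intro F hF _
  rw [Multiset.map_eq_zero] at hF
  subst hF
  refine Eventually.of_forall fun x => ⟨1, ?_⟩
  simp only [pr, Multiset.map_zero, Multiset.prod_zero]
  exact avZ_one

theorem conv_single (a : Slot G k) (hgood : Good1 μ fun m => (Φ (a.S (zc m)) : X → X)) :
    Conv μ Φ {a} := by
  intro F hF hA
  have hF' : F.map Prod.fst = a ::ₘ 0 := hF
  obtain ⟨f, F', rfl, hF''⟩ := split hF'
  rw [Multiset.map_eq_zero] at hF''
  subst hF''
  obtain ⟨⟨hm, C, hC⟩, _⟩ := hA (a, f) (Multiset.mem_cons_self _ _)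
  have h1 := hgood (fun x => (f x).re) (Complex.measurable_re.comp hm)
    ⟨C, fun x => (Complex.abs_re_le_norm _).trans (hC x)⟩
  have h2 := hgood (fun x => (f x).im) (Complex.measurable_im.comp hm)
    ⟨C, fun x => (Complex.abs_im_le_norm _).trans (hC x)⟩
  filter_upwards [h1, h2] with x hx1 hx2
  obtain ⟨L, hL⟩ := bxc_of_bx (a := fun m => f (Φ (a.S (zc m)) x)) hx1 hx2
  refine ⟨L, hL.congr fun M => ?_⟩
  unfold avZ
  congr 1
  funext m
  show f (Φ (a.S (zc m)) x) = pr Φ ((a, f) ::ₘ 0) (zc m) x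
  rw [pr_cons]
  simp [pr]

theorem conv_drop (hΦ : ∀ g, MeasurePreserving (Φ g) μ μ) {a : Slot G k}
    {s : Multiset (Slot G k)} (w : G) (ha : ∀ m, a.S m * w⁻¹ ∈ a.Γ) (h : Conv μ Φ s) :
    Conv μ Φ (a ::ₘ s) := by
  intro F hF hA
  obtain ⟨f, F', rfl, hF''⟩ := split hF
  have h1 := h F' hF'' fun p hp => hA p (Multiset.mem_cons_of_mem hp)
  have h2 : ∀ᵐ x ∂μ, ∀ m, f (Φ (a.S m) x) = f (Φ w x) :=
    ae_all_iff.2 fun m => adm_eq hΦ (hA (a, f) (Multiset.mem_cons_self _ _)) (ha m)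
  filter_upwards [h1, h2] with x hx1 hx2
  obtain ⟨L, hL⟩ := hx1
  refine ⟨f (Φ w x) * L, (hL.const_mul _).congr fun M => ?_⟩
  rw [← avZ_mul]
  congr 1
  funext m
  rw [pr_cons]
  show _ = f (Φ (a.S m) x) * _
  rw [hx2]

theorem conv_rw (hΦ : ∀ g, MeasurePreserving (Φ g) μ μ) {a b : Slot G k}
    {s : Multiset (Slot G k)} (w : G) (ha : ∀ m, a.S m * (w * b.S m)⁻¹ ∈ a.Γ)
    (hb : ∀ g ∈ b.Γ, w * g * w⁻¹ ∈ a.Γ) (h : Conv μ Φ (b ::ₘ s)) : Conv μ Φ (a ::ₘ s) := by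
  intro F hF hA
  obtain ⟨f, F', rfl, hF''⟩ := split hF
  have hadm := hA (a, f) (Multiset.mem_cons_self _ _)
  obtain ⟨⟨hm, C, hC⟩, hinv⟩ := hadm
  have h0 : Adm μ Φ (b, fun x => f (Φ w x)) := by
    refine ⟨⟨hm.comp (hΦ w).measurable, C, fun x => hC _⟩, fun g hg => ?_⟩
    show ∀ᵐ x ∂μ, f (Φ w (Φ g x)) = f (Φ w x)
    have h1 : ∀ᵐ x ∂μ, f (Φ (w * g * w⁻¹) (Φ w x)) = f (Φ w x) :=
      (hΦ w).quasiMeasurePreserving.ae (hinv _ (hb g hg))
    filter_upwards [h1] with x hx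
    rw [← hx, ← Equiv.Perm.mul_apply, ← Equiv.Perm.mul_apply, ← map_mul, ← map_mul,
      inv_mul_cancel_right]
  have h1 := h ((b, fun x => f (Φ w x)) ::ₘ F') (by rw [Multiset.map_cons, hF''])
    (fun p hp => by
      rcases Multiset.mem_cons.1 hp with h2 | h2
      · rw [h2]
        exact h0
      · exact hA p (Multiset.mem_cons_of_mem h2))
  have h2 : ∀ᵐ x ∂μ, ∀ m, f (Φ (a.S m) x) = f (Φ (w * b.S m) x) :=
    ae_all_iff.2 fun m => adm_eq hΦ (hA (a, f) (Multiset.mem_cons_self _ _)) (ha m)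
  filter_upwards [h1, h2] with x hx1 hx2
  obtain ⟨L, hL⟩ := hx1
  refine ⟨L, hL.congr fun M => ?_⟩
  congr 1
  funext m
  rw [pr_cons, pr_cons]
  show f (Φ w (Φ (b.S m) x)) * _ = f (Φ (a.S m) x) * _
  rw [hx2, map_mul, Equiv.Perm.mul_apply]

theorem conv_merge (hΦ : ∀ g, MeasurePreserving (Φ g) μ μ) {a b : Slot G k}
    {s : Multiset (Slot G k)} (A : (Fin k → ℤ) → G) (ha : ∀ m, a.S m * (A m)⁻¹ ∈ a.Γ)
    (hb : ∀ m, b.S m * (A m)⁻¹ ∈ b.Γ) (h : Conv μ Φ (⟨A, a.Γ ⊓ b.Γ⟩ ::ₘ s)) :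
    Conv μ Φ (a ::ₘ b ::ₘ s) := by
  intro F hF hA
  obtain ⟨f, F₁, rfl, hF₁⟩ := split hF
  obtain ⟨g, F', rfl, hF'⟩ := split hF₁
  have hadf := hA (a, f) (Multiset.mem_cons_self _ _)
  have hadg := hA (b, g) (Multiset.mem_cons_of_mem (Multiset.mem_cons_self _ _))
  obtain ⟨⟨hm, C, hC⟩, hinv⟩ := hadf
  obtain ⟨⟨hm', C', hC'⟩, hinv'⟩ := hadg
  have h0 : Adm μ Φ ((⟨A, a.Γ ⊓ b.Γ⟩ : Slot G k), fun x => f x * g x) := by
    refine ⟨⟨hm.mul hm', |C| * |C'|, fun x => ?_⟩, fun w hw => ?_⟩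
    · rw [norm_mul]
      exact mul_le_mul ((hC _).trans (le_abs_self _)) ((hC' _).trans (le_abs_self _))
        (norm_nonneg _) (abs_nonneg _)
    · have hw' := Subgroup.mem_inf.1 hw
      filter_upwards [hinv w hw'.1, hinv' w hw'.2] with x hx1 hx2
      show f (Φ w x) * g (Φ w x) = f x * g x
      have e1 : f (Φ w x) = f x := hx1
      have e2 : g (Φ w x) = g x := hx2
      rw [e1, e2]
  have h1 := h (((⟨A, a.Γ ⊓ b.Γ⟩ : Slot G k), fun x => f x * g x) ::ₘ F')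
    (by rw [Multiset.map_cons, hF'])
    (fun p hp => by
      rcases Multiset.mem_cons.1 hp with h2 | h2
      · rw [h2]
        exact h0
      · exact hA p (Multiset.mem_cons_of_mem (Multiset.mem_cons_of_mem h2)))
  have h2 : ∀ᵐ x ∂μ, ∀ m, f (Φ (a.S m) x) = f (Φ (A m) x) :=
    ae_all_iff.2 fun m => adm_eq hΦ (hA (a, f) (Multiset.mem_cons_self _ _)) (ha m)
  have h3 : ∀ᵐ x ∂μ, ∀ m, g (Φ (b.S m) x) = g (Φ (A m) x) :=
    ae_all_iff.2 fun m => adm_eq hΦ
      (hA (b, g) (Multiset.mem_cons_of_mem (Multiset.mem_cons_self _ _))) (hb m)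
  filter_upwards [h1, h2, h3] with x hx1 hx2 hx3
  obtain ⟨L, hL⟩ := hx1
  refine ⟨L, hL.congr fun M => ?_⟩
  congr 1
  funext m
  rw [pr_cons, pr_cons, pr_cons]
  show f (Φ (A m) x) * g (Φ (A m) x) * _ = f (Φ (a.S m) x) * (g (Φ (b.S m) x) * _)
  rw [hx2, hx3, mul_assoc]

theorem conv_erase (hΦ : ∀ g, MeasurePreserving (Φ g) μ μ) {a : Slot G k}
    {s : Multiset (Slot G k)} (v : Fin k → ℤ) (U : G) (ha : ∀ m, a.S (m + v) = U * a.S m)
    (hs : ∀ b ∈ s, ∀ m, b.S (m + v) * (b.S m)⁻¹ ∈ b.Γ)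
    (hgood : Good1 μ fun m => (Φ (a.S (zc m)) : X → X))
    (h : Conv μ Φ (⟨a.S, (a.Γ ⊓ Subgroup.centralizer {U}) ⊔ Subgroup.zpowers U⟩ ::ₘ s)) :
    Conv μ Φ (a ::ₘ s) := by
  intro F hF hA
  obtain ⟨f, F', rfl, hF''⟩ := split hF
  have hadm := hA (a, f) (Multiset.mem_cons_self _ _)
  obtain ⟨hBM, hinv⟩ := hadm
  obtain ⟨e, he, hfe⟩ := exists_mean (hΦ U) hBM
  have hA' : ∀ p ∈ F', Adm μ Φ p := fun p hp => hA p (Multiset.mem_cons_of_mem hp)
  have hvF : ∀ p ∈ F', ∀ m, p.1.S (m + v) * (p.1.S m)⁻¹ ∈ p.1.Γ := by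
    intro p hp m
    refine hs p.1 ?_ m
    rw [← hF'']
    exact Multiset.mem_map_of_mem _ hp
  obtain ⟨C, hC⟩ := pr_bound hA'
  have hcore := erase_core (S := fun m => (Φ (a.S m) : X → X)) (fun m => hΦ _) hgood (hΦ U)
    (v := v) (Eventually.of_forall fun x m => by
      show Φ (a.S (m + v)) x = Φ U (Φ (a.S m) x)
      rw [ha, map_mul, Equiv.Perm.mul_apply]) hBM he hfe (R := fun m x => pr Φ F' m x) hC
    (pr_shift hΦ hA' hvF)
  -- invariance of the mean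
  have hle : (a.Γ ⊓ Subgroup.centralizer {U}) ⊔ Subgroup.zpowers U ≤ stab μ Φ hΦ e := by
    refine sup_le (fun g hg => ?_) ?_
    · obtain ⟨hg1, hg2⟩ := Subgroup.mem_inf.1 hg
      have hcomm : U * g = g * U := Subgroup.mem_centralizer_singleton_iff.1 hg2 |>.symm
      show ∀ᵐ x ∂μ, e (Φ g x) = e x
      have h1 : ∀ᵐ x ∂μ, Tendsto (fun H : ℕ => bk (Φ U) f H (Φ g x)) atTop (𝓝 (e (Φ g x))) :=
        (hΦ g).quasiMeasurePreserving.ae hfe
      have h2 : ∀ᵐ x ∂μ, ∀ n : ℕ, f (Φ g ((Φ U)^[n] x)) = f ((Φ U)^[n] x) :=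
        ae_all_iff.2 fun n => ((hΦ U).iterate n).quasiMeasurePreserving.ae (hinv g hg1)
      filter_upwards [h1, h2, hfe] with x hx1 hx2 hx3
      have hit : ∀ n : ℕ, (Φ U)^[n] (Φ g x) = Φ g ((Φ U)^[n] x) := by
        intro n
        induction n with
        | zero => rfl
        | succ n ih =>
          rw [Function.iterate_succ_apply', Function.iterate_succ_apply', ih,
            ← Equiv.Perm.mul_apply, ← Equiv.Perm.mul_apply, ← map_mul, ← map_mul, hcomm]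
      refine tendsto_nhds_unique hx1 (hx3.congr fun H => ?_)
      unfold bk
      congr 1
      refine Finset.sum_congr rfl fun n _ => ?_
      rw [hit, hx2]
    · rw [Subgroup.zpowers_le]
      show ∀ᵐ x ∂μ, e (Φ U x) = e x
      have h1 : ∀ᵐ x ∂μ, Tendsto (fun H : ℕ => bk (Φ U) f H (Φ U x)) atTop (𝓝 (e (Φ U x))) :=
        (hΦ U).quasiMeasurePreserving.ae hfe
      obtain ⟨_, D, hD⟩ := hBM
      filter_upwards [h1, hfe] with x hx1 hx3
      have h4 : Tendsto (fun H : ℕ => (H : ℂ)⁻¹ * (f ((Φ U)^[H] x) - f x)) atTop (𝓝 0) := by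
        have h5 : Tendsto (fun H : ℕ => (H : ℝ)⁻¹ * (2 * |D|)) atTop (𝓝 0) := by
          have h6 := (tendsto_inv_atTop_nhds_zero_nat (𝕜 := ℝ)).mul_const (2 * |D|)
          rwa [zero_mul] at h6
        refine squeeze_zero_norm (fun H => ?_) h5
        rw [norm_mul, norm_inv, Complex.norm_natCast]
        refine mul_le_mul_of_nonneg_left ?_ (by positivity)
        refine (norm_sub_le _ _).trans ?_
        have a1 := (hD ((Φ U)^[H] x)).trans (le_abs_self _)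
        have a2 := (hD x).trans (le_abs_self _)
        linarith
      have h6 := hx3.add h4
      rw [add_zero] at h6
      refine tendsto_nhds_unique hx1 (h6.congr fun H => ?_)
      unfold bk
      rw [← mul_add]
      congr 1
      have e1 := Finset.sum_range_succ (fun n => f ((Φ U)^[n] x)) H
      have e2 := Finset.sum_range_succ' (fun n => f ((Φ U)^[n] x)) H
      have e3 : ∀ n, f ((Φ U)^[n + 1] x) = f ((Φ U)^[n] (Φ U x)) := fun n => by
        rw [Function.iterate_succ_apply]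
      simp only [e3] at e2
      simp only [Function.iterate_zero, id_eq] at e2
      linear_combination e2 - e1
  have h1 := h ((⟨a.S, (a.Γ ⊓ Subgroup.centralizer {U}) ⊔ Subgroup.zpowers U⟩, e) ::ₘ F')
    (by rw [Multiset.map_cons, hF''])
    (fun p hp => by
      rcases Multiset.mem_cons.1 hp with h2 | h2
      · rw [h2]
        exact ⟨he, fun g hg => hle hg⟩
      · exact hA' p h2)
  filter_upwards [hcore, h1] with x hx1 hx2
  obtain ⟨L, hL⟩ := hx2
  refine ⟨L, ?_⟩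
  have h3 := hx1.add hL
  rw [zero_add] at h3
  refine h3.congr fun M => ?_
  simp only [pr_cons]
  ring

end Pool.Agent.Helper34.FB
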