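import Pool.Agent.Helper34.FB.Shift

/-!
# Elimination for multilinear box averages: one step
-/

set_option autoImplicit false
set_option linter.unusedSectionVars false

open MeasureTheory Filter Topology

noncomputable section

namespace Pool.Agent.Helper34.FB

open Pool.Agent.W761.Box (bx bxc BM Good1 bx_add bx_mul bx_sum bx_mono bx_abs bx_const_le
  bx_nonneg dz orb bxc_add bxc_sub bxc_mul bxc_norm bxc_bound int_lim_le' bx_bound bxc_of_bx)

variable {X : Type*} [MeasurableSpace X] {μ : Measure X} [IsProbabilityMeasure μ]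

/-- ergodic averages of one map -/
def bk (u : X → X) (f : X → ℂ) (H : ℕ) (x : X) : ℂ :=
  (H : ℂ)⁻¹ * ∑ h ∈ Finset.range H, f (u^[h] x)

theorem bk_norm {u : X → X} {f : X → ℂ} {C : ℝ} (hf : ∀ x, ‖f x‖ ≤ C) (H : ℕ) (x : X) :
    ‖bk u f H x‖ ≤ C := by
  have hC : 0 ≤ C := (norm_nonneg _).trans (hf x)
  unfold bk
  rw [norm_mul, norm_inv, Complex.norm_natCast]
  rcases Nat.eq_zero_or_pos H with h | h
  · subst h
    simpa using hC
  · have hH : (0 : ℝ) < H := by exact_mod_cast h
    have h1 : ‖∑ h ∈ Finset.range H, f (u^[h] x)‖ ≤ H * C := by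
      refine (norm_sum_le _ _).trans ((Finset.sum_le_sum fun m _ => hf _).trans ?_)
      rw [Finset.sum_const, nsmul_eq_mul, Finset.card_range]
    calc (H : ℝ)⁻¹ * ‖∑ h ∈ Finset.range H, f (u^[h] x)‖ ≤ (H : ℝ)⁻¹ * (H * C) :=
          mul_le_mul_of_nonneg_left h1 (by positivity)
      _ = C := by field_simp

theorem bk_meas {u : X → X} (hu : Measurable u) {f : X → ℂ} (hf : Measurable f) (H : ℕ) :
    Measurable (bk u f H) := by
  unfold bk
  exact (Finset.measurable_fun_sum _ fun h _ => hf.comp (hu.iterate h)).const_mul _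

theorem exists_mean {u : X → X} (hu : MeasurePreserving u μ μ) {f : X → ℂ} (hf : BM f) :
    ∃ e : X → ℂ, BM e ∧ ∀ᵐ x ∂μ, Tendsto (fun H : ℕ => bk u f H x) atTop (𝓝 (e x)) := by
  classical
  obtain ⟨hfm, C, hC⟩ := hf
  have h1 := dz 1 (fun _ => u) (fun _ => hu) (fun x => (f x).re)
    (Complex.measurable_re.comp hfm) C fun x => (Complex.abs_re_le_norm _).trans (hC x)
  have h2 := dz 1 (fun _ => u) (fun _ => hu) (fun x => (f x).im)
    (Complex.measurable_im.comp hfm) C fun x => (Complex.abs_im_le_norm _).trans (hC x)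
  have h3 : ∀ᵐ x ∂μ, ∃ L : ℂ, Tendsto (fun H : ℕ => bk u f H x) atTop (𝓝 L) := by
    filter_upwards [h1, h2] with x hx1 hx2
    obtain ⟨L, hL⟩ := bxc_of_bx (a := fun m => f (orb 1 (fun _ => u) m x)) hx1 hx2
    refine ⟨L, ?_⟩
    have h4 : Tendsto (fun H : ℕ => (fun _ : Fin 1 => H)) atTop atTop :=
      tendsto_atTop_atTop.2 fun b => ⟨b 0, fun a ha i => by
        rw [Fin.eq_zero i]
        exact ha⟩
    refine (hL.comp h4).congr fun H => ?_
    simp only [Function.comp_apply, bxc, bk, Fin.prod_univ_one]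
    congr 1
    refine Finset.sum_nbij' (fun m => m 0) (fun h _ => h) ?_ ?_ ?_ ?_ ?_
    · intro m hm
      exact (Fintype.mem_piFinset.1 hm) 0
    · intro h hh
      exact Fintype.mem_piFinset.2 fun _ => hh
    · intro m _
      funext i
      rw [Fin.eq_zero i]
    · intro h _
      rfl
    · intro m _
      rfl
  obtain ⟨e, hem, hlim⟩ := measurable_limit_of_tendsto_metrizable_ae
    (fun H => (bk_meas hu.measurable hfm H).aemeasurable) h3
  refine ⟨fun x => if ‖e x‖ ≤ C then e x else 0, ⟨?_, |C|, fun x => ?_⟩, ?_⟩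
  · exact Measurable.ite (measurableSet_le hem.norm measurable_const) hem measurable_const
  · show ‖if ‖e x‖ ≤ C then e x else 0‖ ≤ |C|
    split_ifs with h
    · exact h.trans (le_abs_self _)
    · simp
  · filter_upwards [hlim] with x hx
    have h5 : ‖e x‖ ≤ C := le_of_tendsto hx.norm (Eventually.of_forall fun H => bk_norm hC H x)
    rw [if_pos h5]
    exact hx

/-- **One step.** The function `f` may be replaced by its mean. -/
theorem erase_core {k : ℕ} {S : (Fin k → ℤ) → X → X} (hS : ∀ m, MeasurePreserving (S m) μ μ)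
    (hgood : Good1 μ fun m => S (zc m)) {u : X → X} (hu : MeasurePreserving u μ μ)
    {v : Fin k → ℤ} (hv : ∀ᵐ x ∂μ, ∀ m, S (m + v) x = u (S m x)) {f e : X → ℂ} (hf : BM f)
    (he : BM e) (hfe : ∀ᵐ x ∂μ, Tendsto (fun H : ℕ => bk u f H x) atTop (𝓝 (e x)))
    {R : (Fin k → ℤ) → X → ℂ} {C : ℝ} (hRb : ∀ m x, ‖R m x‖ ≤ C)
    (hR : ∀ᵐ x ∂μ, ∀ m, R (m + v) x = R m x) :
    ∀ᵐ x ∂μ, Tendsto (fun M => avZ k M (fun m => f (S m x) * R m x) -
      avZ k M (fun m => e (S m x) * R m x)) atTop (𝓝 0) := by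
  obtain ⟨hfm, Cf, hCf⟩ := hf
  obtain ⟨hem, Ce, hCe⟩ := he
  have hC : 0 ≤ C := by
    rcases isEmpty_or_nonempty X with h | ⟨⟨x⟩⟩
    · exfalso
      have h1 : μ Set.univ = 1 := measure_univ
      rw [Set.univ_eq_empty_iff.2 h, measure_empty] at h1
      exact zero_ne_one h1
    · exact (norm_nonneg _).trans (hRb 0 x)
  let K : ℕ → X → ℝ := fun H x => ‖bk u f H x - e x‖
  have hKm : ∀ H, Measurable (K H) := fun H =>
    ((bk_meas hu.measurable hfm H).sub hem).norm
  have hKb : ∀ H x, |K H x| ≤ |Cf + Ce| := fun H x => by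
    show |‖bk u f H x - e x‖| ≤ _
    rw [abs_of_nonneg (norm_nonneg _)]
    exact ((norm_sub_le _ _).trans (add_le_add (bk_norm hCf H x) (hCe x))).trans (le_abs_self _)
  have hKint : Tendsto (fun H => ∫ x, K H x ∂μ) atTop (𝓝 0) := by
    have h1 := tendsto_integral_of_dominated_convergence (μ := μ) (F := K) (f := fun _ => (0 : ℝ))
      (fun _ => |Cf + Ce|) (fun H => (hKm H).aestronglyMeasurable) (integrable_const _)
      (fun H => Eventually.of_forall fun x => by
        rw [Real.norm_eq_abs]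
        exact hKb H x) (by
        filter_upwards [hfe] with x hx
        have h2 := (hx.sub_const (e x)).norm
        simpa using h2)
    simpa using h1
  have hB := fun H => hgood (K H) (hKm H) ⟨_, hKb H⟩
  let γ : ℕ → X → ℝ := fun H x => limUnder atTop (fun N => bx k N fun m => K H (S (zc m) x))
  have hγ : ∀ H, ∀ᵐ x ∂μ, Tendsto (fun N => bx k N fun m => K H (S (zc m) x)) atTop
      (𝓝 (γ H x)) := by
    intro H
    filter_upwards [hB H] with x hx
    exact tendsto_nhds_limUnder hx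
  have hγp := fun H => int_lim_le' (fun m => hS (zc m)) (hKm H) (abs_nonneg _) (hKb H)
    (fun x => norm_nonneg _) (hγ H)
  have hsmall : ∀ ε : ℝ, 0 < ε → ∀ᵐ x ∂μ, ∃ H, γ H x < ε ∧ 1 ≤ H := by
    intro ε hε
    rw [ae_iff, ← nonpos_iff_eq_zero]
    apply ENNReal.le_of_forall_pos_le_add
    intro δ hδ _
    rw [zero_add]
    have hδ' : (0 : ℝ) < δ := by exact_mod_cast hδ
    obtain ⟨H, hH, hH1⟩ := (((tendsto_order.mp hKint).2 (ε * δ) (by positivity)).and
      (eventually_ge_atTop 1)).exists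
    have hmk := mul_meas_ge_le_integral_of_nonneg (hγp H).1 (hγp H).2.1 ε
    have h3 : μ.real {x | ε ≤ γ H x} ≤ δ := by
      have h4 : ε * μ.real {x | ε ≤ γ H x} ≤ ε * δ :=
        hmk.trans ((hγp H).2.2.trans hH.le)
      exact le_of_mul_le_mul_left h4 hε
    refine (measure_mono (t := {x | ε ≤ γ H x}) fun x hx => ?_).trans ?_
    · by_contra hcon
      exact hx ⟨H, not_le.mp hcon, hH1⟩
    · have h20 : μ {x | ε ≤ γ H x} = ENNReal.ofReal (μ.real {x | ε ≤ γ H x}) := by
        rw [measureReal_def, ENNReal.ofReal_toReal (measure_ne_top _ _)]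
      rw [h20]
      calc ENNReal.ofReal (μ.real {x | ε ≤ γ H x}) ≤ ENNReal.ofReal (δ : ℝ) :=
            ENNReal.ofReal_le_ofReal h3
        _ = δ := ENNReal.ofReal_coe_nnreal
  have hall : ∀ᵐ x ∂μ, ∀ i : ℕ, ∃ H, γ H x < 1 / ((i : ℝ) + 1) ∧ 1 ≤ H :=
    ae_all_iff.mpr fun i => hsmall _ (by positivity)
  have hγall : ∀ᵐ x ∂μ, ∀ H, Tendsto (fun N => bx k N fun m => K H (S (zc m) x)) atTop
      (𝓝 (γ H x)) := ae_all_iff.mpr hγ
  filter_upwards [hv, hR, hall, hγall] with x hvx hRx hallx hγx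
  -- iterated shifts
  have hvh : ∀ (h : ℕ) (m : Fin k → ℤ), S (m + h • v) x = u^[h] (S m x) := by
    intro h
    induction h with
    | zero =>
      intro m
      simp
    | succ h ih =>
      intro m
      rw [succ_nsmul, ← add_assoc, hvx, ih, Function.iterate_succ_apply']
  have hRh : ∀ (h : ℕ) (m : Fin k → ℤ), R (m + h • v) x = R m x := by
    intro h
    induction h with
    | zero =>
      intro m
      simp
    | succ h ih =>
      intro m
      rw [succ_nsmul, ← add_assoc, hRx, ih]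
  let F : (Fin k → ℤ) → ℂ := fun m => f (S m x) * R m x
  have hFb : ∀ m, ‖F m‖ ≤ |Cf| * C := by
    intro m
    show ‖f (S m x) * R m x‖ ≤ _
    rw [norm_mul]
    exact mul_le_mul ((hCf _).trans (le_abs_self _)) (hRb _ _) (norm_nonneg _) (abs_nonneg _)
  have hstep1 : ∀ H : ℕ, 1 ≤ H → Tendsto (fun M => avZ k M F -
      avZ k M (fun m => bk u f H (S m x) * R m x)) atTop (𝓝 0) := by
    intro H hH
    have h1 : ∀ M, avZ k M (fun m => bk u f H (S m x) * R m x) =
        (H : ℂ)⁻¹ * ∑ h ∈ Finset.range H, avZ k M (fun m => F (m + h • v)) := by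
      intro M
      rw [← avZ_sum, ← avZ_mul]
      congr 1
      funext m
      simp only [bk, F]
      rw [mul_assoc, Finset.sum_mul]
      congr 1
      refine Finset.sum_congr rfl fun h _ => ?_
      rw [hvh, hRh]
    have hH0 : (H : ℂ) ≠ 0 := by
      have : H ≠ 0 := by omega
      exact_mod_cast this
    have h2 : ∀ M, avZ k M F - avZ k M (fun m => bk u f H (S m x) * R m x) =
        -((H : ℂ)⁻¹ * ∑ h ∈ Finset.range H,
          (avZ k M (fun m => F (m + h • v)) - avZ k M F)) := by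
      intro M
      rw [h1, Finset.sum_sub_distrib, Finset.sum_const, Finset.card_range, nsmul_eq_mul]
      field_simp
      ring
    simp only [h2]
    have h3 : Tendsto (fun M => ∑ h ∈ Finset.range H,
        (avZ k M (fun m => F (m + h • v)) - avZ k M F)) atTop (𝓝 (∑ h ∈ Finset.range H, 0)) :=
      tendsto_finsetSum _ fun h _ => shift (h • v) hFb
    have h4 := (h3.const_mul (H : ℂ)⁻¹).neg
    simpa using h4
  have hstep2 : ∀ (H : ℕ) (M : Fin k → ℕ), ‖avZ k M (fun m => bk u f H (S m x) * R m x) -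
      avZ k M (fun m => e (S m x) * R m x)‖ ≤ C * bx k M fun m => K H (S (zc m) x) := by
    intro H M
    rw [← avZ_sub, ← bx_mul]
    refine (bxc_norm _ _ _).trans (bx_mono fun m => ?_)
    show ‖bk u f H (S (zc m) x) * R (zc m) x - e (S (zc m) x) * R (zc m) x‖ ≤
      C * ‖bk u f H (S (zc m) x) - e (S (zc m) x)‖
    rw [← sub_mul, norm_mul, mul_comm]
    exact mul_le_mul_of_nonneg_right (hRb _ _) (norm_nonneg _)
  rw [Metric.tendsto_nhds]
  intro ε hε
  obtain ⟨i, hi⟩ := exists_nat_one_div_lt (show (0 : ℝ) < ε / (2 * (C + 1)) by positivity)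
  obtain ⟨H, hH, hH1⟩ := hallx i
  have e1 := (tendsto_order.mp (hγx H)).2 (ε / (2 * (C + 1))) (hH.trans hi)
  have e2 := (Metric.tendsto_nhds.mp (hstep1 H hH1)) (ε / 2) (by positivity)
  filter_upwards [e1, e2] with M h1 h2
  rw [dist_zero_right] at h2 ⊢
  have h3 := hstep2 H M
  have h4 : C * bx k M (fun m => K H (S (zc m) x)) ≤ ε / 2 := by
    have h5 : 0 ≤ bx k M (fun m => K H (S (zc m) x)) := bx_nonneg fun m => norm_nonneg _
    calc C * bx k M (fun m => K H (S (zc m) x)) ≤ (C + 1) * (ε / (2 * (C + 1))) :=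
          mul_le_mul (by linarith) h1.le h5 (by linarith)
      _ = ε / 2 := by field_simp
  have h6 : avZ k M (fun m => f (S m x) * R m x) - avZ k M (fun m => e (S m x) * R m x) =
      (avZ k M F - avZ k M (fun m => bk u f H (S m x) * R m x)) +
      (avZ k M (fun m => bk u f H (S m x) * R m x) -
        avZ k M (fun m => e (S m x) * R m x)) := by
    simp only [F]
    ring
  rw [h6]
  refine (norm_add_le _ _).trans_lt ?_
  linarith

end Pool.Agent.Helper34.FB
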