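import Pool.Agent.Helper34.FB.Sub

/-!
# Box averages: adding parameters

If `a` is a bounded function on `ℤ^k` and, for all residues `r` modulo `q`, the averages of
`a (q m + r + ∑_l n_l w_l)` over boxes in `(m, n) ∈ ℤ^(k + D)` converge, then the averages of `a`
over boxes converge.
-/

set_option autoImplicit false
set_option linter.unusedSectionVars false

open MeasureTheory Filter Topology

noncomputable section

namespace Pool.Agent.Helper34.FB

open Pool.Agent.W761.Box (bx bxc BM Good1 bxc_bound)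

/-- the averages over the residue classes -/
def resAv (k q : ℕ) (M : Fin k → ℕ) (a : (Fin k → ℤ) → ℂ) : ℂ :=
  ((q : ℂ) ^ k)⁻¹ * ∑ r ∈ Fintype.piFinset (fun _ : Fin k => Finset.range q),
    avZ k (fun i => M i / q) fun m => a (fun i => q * m i + (r i : ℤ))

theorem avZ_norm {k : ℕ} {C : ℝ} (hC : 0 ≤ C) (M : Fin k → ℕ) {a : (Fin k → ℤ) → ℂ}
    (ha : ∀ m, ‖a m‖ ≤ C) : ‖avZ k M a‖ ≤ C := bxc_bound hC fun m => ha _

theorem resAv_norm {k q : ℕ} (hq : 0 < q) {C : ℝ} (hC : 0 ≤ C) (M : Fin k → ℕ)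
    {a : (Fin k → ℤ) → ℂ} (ha : ∀ m, ‖a m‖ ≤ C) : ‖resAv k q M a‖ ≤ C := by
  unfold resAv
  rw [norm_mul, norm_inv, norm_pow, Complex.norm_natCast]
  have hq' : (0 : ℝ) < (q : ℝ) ^ k := by positivity
  have h1 : ‖∑ r ∈ Fintype.piFinset (fun _ : Fin k => Finset.range q),
      avZ k (fun i => M i / q) fun m => a (fun i => q * m i + (r i : ℤ))‖ ≤ (q : ℝ) ^ k * C := by
    refine (norm_sum_le _ _).trans ((Finset.sum_le_sum fun r _ =>
      avZ_norm hC _ fun m => ha _).trans (le_of_eq ?_))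
    rw [Finset.sum_const, nsmul_eq_mul, Fintype.card_piFinset]
    simp
  calc ((q : ℝ) ^ k)⁻¹ * _ ≤ ((q : ℝ) ^ k)⁻¹ * ((q : ℝ) ^ k * C) :=
        mul_le_mul_of_nonneg_left h1 (by positivity)
    _ = C := by field_simp

/-- a box average is close to the mean of the averages over the residue classes -/
theorem res_diff {k q : ℕ} (hq : 0 < q) {a : (Fin k → ℤ) → ℂ} {C : ℝ} (ha : ∀ m, ‖a m‖ ≤ C) :
    Tendsto (fun M => avZ k M a - resAv k q M a) atTop (𝓝 0) := by
  classical
  have hC : 0 ≤ C := (norm_nonneg _).trans (ha 0)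
  have hratio : Tendsto (fun M : Fin k → ℕ => ∏ i, (((q * (M i / q) : ℕ) : ℝ) / (M i : ℝ))) atTop
      (𝓝 1) := by
    have h1 := tendsto_finsetProd (Finset.univ : Finset (Fin k)) (fun i _ => div_lim hq i)
    simpa using h1
  have hlim : Tendsto (fun M : Fin k → ℕ =>
      2 * C * (1 - ∏ i, (((q * (M i / q) : ℕ) : ℝ) / (M i : ℝ)))) atTop (𝓝 0) := by
    have h2 := (hratio.const_sub 1).const_mul (2 * C)
    simpa using h2
  refine squeeze_zero_norm' ?_ hlim
  filter_upwards [eventually_ge_atTop (fun _ => q : Fin k → ℕ)] with M hM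
  have hM0 : ∀ i, 0 < M i := fun i => lt_of_lt_of_le hq (hM i)
  set D : Fin k → ℕ := fun i => M i / q with hD
  set b : (Fin k → ℕ) → ℂ := fun m => a (zc m) with hb
  set I := Fintype.piFinset (fun i => Finset.range (M i)) with hI
  set J := Fintype.piFinset (fun i => Finset.range (q * D i)) with hJ
  have hJI : J ⊆ I := Fintype.piFinset_subset _ _ fun i x hx => by
    rw [Finset.mem_range] at hx ⊢
    exact hx.trans_le (Nat.mul_div_le (M i) q)
  have hpos : (0 : ℝ) < ∏ i, (M i : ℝ) := Finset.prod_pos fun i _ => by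
    have := hM0 i
    positivity
  have hIc : (I.card : ℝ) = ∏ i, (M i : ℝ) := by
    rw [hI, Fintype.card_piFinset]
    simp
  have hJc : (J.card : ℝ) = ∏ i, ((q * (M i / q) : ℕ) : ℝ) := by
    rw [hJ, Fintype.card_piFinset]
    simp [hD]
  have hle : ∏ i, (((q * (M i / q) : ℕ) : ℝ) / (M i : ℝ)) ≤ 1 := by
    refine Finset.prod_le_one (fun i _ => by positivity) fun i _ => ?_
    have h1 : (0 : ℝ) < M i := by
      have := hM0 i
      positivity
    rw [div_le_one h1]
    exact_mod_cast Nat.mul_div_le (M i) q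
  set ρ : ℝ := ∏ i, (((q * (M i / q) : ℕ) : ℝ) / (M i : ℝ)) with hρ
  -- the average over the smaller box
  have hTeq : (ρ : ℂ) * resAv k q M a = (∏ i, (M i : ℂ))⁻¹ * ∑ m ∈ J, b m := by
    rw [hJ, sum_residues hq]
    have hDne : ∀ i, ((D i : ℕ) : ℂ) ≠ 0 := fun i => by
      have h1 : D i ≠ 0 := (Nat.div_pos (hM i) hq).ne'
      exact_mod_cast h1
    have hMne : ∀ i, ((M i : ℕ) : ℂ) ≠ 0 := fun i => by
      have := (hM0 i).ne'
      exact_mod_cast this
    have hq0 : (q : ℂ) ≠ 0 := by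
      have : q ≠ 0 := by omega
      exact_mod_cast this
    have h1 : ∀ r : Fin k → ℕ, (avZ k D fun m => a (fun i => q * m i + (r i : ℤ))) =
        (∏ i, (D i : ℂ))⁻¹ * ∑ n ∈ Fintype.piFinset (fun i => Finset.range (D i)),
          b (fun i => q * n i + r i) := by
      intro r
      unfold avZ bxc
      congr 1
    unfold resAv
    simp only [← hD, h1]
    rw [← Finset.mul_sum, hρ]
    push_cast
    rw [Finset.prod_div_distrib, Finset.prod_mul_distrib, Finset.prod_const, Finset.card_univ,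
      Fintype.card_fin]
    have h2 : (∏ i, ((D i : ℕ) : ℂ)) ≠ 0 := Finset.prod_ne_zero_iff.2 fun i _ => hDne i
    have h3 : (∏ i, ((M i : ℕ) : ℂ)) ≠ 0 := Finset.prod_ne_zero_iff.2 fun i _ => hMne i
    have h4 : (∏ i, ((D i : ℕ) : ℂ)) = ∏ i, ((M i / q : ℕ) : ℂ) := rfl
    rw [h4] at h2 ⊢
    field_simp
  have h5 : avZ k M a - (∏ i, (M i : ℂ))⁻¹ * ∑ m ∈ J, b m =
      (∏ i, (M i : ℂ))⁻¹ * ∑ m ∈ I \ J, b m := by
    have h6 := Finset.sum_sdiff (f := b) hJI
    unfold avZ bxc
    rw [← mul_sub]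
    congr 1
    rw [← h6]
    ring
  have h8 : ‖avZ k M a - (ρ : ℂ) * resAv k q M a‖ ≤ C * (1 - ρ) := by
    rw [hTeq, h5, norm_mul, norm_inv, norm_prod]
    simp only [Complex.norm_natCast]
    have h7 : ‖∑ m ∈ I \ J, b m‖ ≤ C * ((∏ i, (M i : ℝ)) - ∏ i, ((q * (M i / q) : ℕ) : ℝ)) := by
      refine (norm_sum_le _ _).trans ((Finset.sum_le_sum fun m _ => ha _).trans (le_of_eq ?_))
      rw [Finset.sum_const, nsmul_eq_mul, mul_comm]
      have h2 : (I \ J).card + J.card = I.card := by
        rw [Finset.card_sdiff_of_subset hJI]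
        exact Nat.sub_add_cancel (Finset.card_le_card hJI)
      have h3 : ((I \ J).card : ℝ) + J.card = I.card := by exact_mod_cast h2
      rw [hIc, hJc] at h3
      rw [← h3]
      ring
    calc (∏ i, (M i : ℝ))⁻¹ * ‖∑ m ∈ I \ J, b m‖ ≤
        (∏ i, (M i : ℝ))⁻¹ * (C * ((∏ i, (M i : ℝ)) - ∏ i, ((q * (M i / q) : ℕ) : ℝ))) :=
          mul_le_mul_of_nonneg_left h7 (inv_pos.2 hpos).le
      _ = C * (1 - ρ) := by
          rw [hρ, Finset.prod_div_distrib]
          field_simp
  have h9 : ‖(ρ : ℂ) * resAv k q M a - resAv k q M a‖ ≤ C * (1 - ρ) := by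
    have e : (ρ : ℂ) * resAv k q M a - resAv k q M a = (((ρ - 1 : ℝ)) : ℂ) * resAv k q M a := by
      push_cast
      ring
    rw [e, norm_mul, Complex.norm_real, Real.norm_eq_abs, abs_of_nonpos (by linarith)]
    have h10 := resAv_norm hq hC M ha
    nlinarith
  have e : avZ k M a - resAv k q M a = (avZ k M a - (ρ : ℂ) * resAv k q M a) +
      ((ρ : ℂ) * resAv k q M a - resAv k q M a) := by ring
  rw [e]
  refine (norm_add_le _ _).trans ?_
  linarith

/-- averages over a product of boxes -/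
theorem bxc_append {k D : ℕ} (M : Fin k → ℕ) (H : Fin D → ℕ) (a : (Fin (k + D) → ℕ) → ℂ) :
    bxc (k + D) (Fin.append M H) a =
      bxc D H fun n => bxc k M fun m => a (Fin.append m n) := by
  classical
  unfold bxc
  rw [Fin.prod_univ_add]
  simp only [Fin.append_left, Fin.append_right]
  rw [← Finset.mul_sum, ← mul_assoc, mul_inv_rev]
  congr 1
  rw [← Finset.sum_product']
  refine Finset.sum_nbij' (fun p => (fun j => p (Fin.natAdd k j), fun i => p (Fin.castAdd D i)))
    (fun p => Fin.append p.2 p.1) ?_ ?_ ?_ ?_ ?_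
  · intro p hp
    rw [Fintype.mem_piFinset] at hp
    rw [Finset.mem_product, Fintype.mem_piFinset, Fintype.mem_piFinset]
    refine ⟨fun j => ?_, fun i => ?_⟩
    · have h := hp (Fin.natAdd k j)
      rwa [Fin.append_right] at h
    · have h := hp (Fin.castAdd D i)
      rwa [Fin.append_left] at h
  · intro p hp
    rw [Finset.mem_product, Fintype.mem_piFinset, Fintype.mem_piFinset] at hp
    rw [Fintype.mem_piFinset]
    intro i
    refine Fin.addCases (fun i => ?_) (fun i => ?_) i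
    · rw [Fin.append_left, Fin.append_left]
      exact hp.2 i
    · rw [Fin.append_right, Fin.append_right]
      exact hp.1 i
  · intro p _
    funext i
    refine Fin.addCases (fun i => ?_) (fun i => ?_) i
    · rw [Fin.append_left]
    · rw [Fin.append_right]
  · intro p _
    refine Prod.ext ?_ ?_
    · funext i
      simp only [Fin.append_right]
    · funext i
      simp only [Fin.append_left]
  · intro p _
    congr 1
    funext i
    refine Fin.addCases (fun i => ?_) (fun i => ?_) i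
    · rw [Fin.append_left]
    · rw [Fin.append_right]

theorem zc_append {k D : ℕ} (m : Fin k → ℕ) (n : Fin D → ℕ) :
    zc (Fin.append m n) = Fin.append (zc m) (zc n) := by
  funext i
  refine Fin.addCases (fun i => ?_) (fun i => ?_) i
  · simp [zc]
  · simp [zc]

/-- the first coordinates -/
def p1 {k D : ℕ} (z : Fin (k + D) → ℤ) : Fin k → ℤ := fun i => z (Fin.castAdd D i)

/-- the last coordinates -/
def p2 {k D : ℕ} (z : Fin (k + D) → ℤ) : Fin D → ℤ := fun i => z (Fin.natAdd k i)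

/-- **Adding parameters.** -/
theorem doubling {k D q : ℕ} (hq : 0 < q) {a : (Fin k → ℤ) → ℂ} {C : ℝ} (ha : ∀ m, ‖a m‖ ≤ C)
    (w : (Fin D → ℤ) → (Fin k → ℤ)) {L : (Fin k → ℕ) → ℂ}
    (h : ∀ r : Fin k → ℕ, Tendsto (fun P => avZ (k + D) P fun z =>
      a ((fun i => q * p1 z i + (r i : ℤ)) + w (p2 z))) atTop (𝓝 (L r))) :
    ∃ L' : ℂ, Tendsto (fun M => avZ k M a) atTop (𝓝 L') := by
  classical
  have hC : 0 ≤ C := (norm_nonneg _).trans (ha 0)
  set RR := Fintype.piFinset (fun _ : Fin k => Finset.range q) with hRR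
  refine ⟨((q : ℂ) ^ k)⁻¹ * ∑ r ∈ RR, L r, ?_⟩
  rw [Metric.tendsto_nhds]
  intro ε hε
  -- a common side
  have h1 : ∀ r : Fin k → ℕ, ∃ K : ℕ, ∀ P : Fin (k + D) → ℕ, (∀ i, K ≤ P i) →
      ‖avZ (k + D) P (fun z => a ((fun i => q * p1 z i + (r i : ℤ)) + w (p2 z))) - L r‖
        ≤ ε / 4 := by
    intro r
    obtain ⟨P₀, hP₀⟩ := Metric.tendsto_atTop.mp (h r) (ε / 4) (by positivity)
    refine ⟨Finset.univ.sup P₀, fun P hP => ?_⟩
    have h2 := hP₀ P fun i => (Finset.le_sup (Finset.mem_univ i)).trans (hP i)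
    rw [dist_eq_norm] at h2
    exact h2.le
  choose K hK using h1
  set K₀ : ℕ := RR.sup K + 1 with hK₀
  set H : Fin D → ℕ := fun _ => K₀ with hH
  have hHprod : (∏ i, (H i : ℂ)) ≠ 0 := Finset.prod_ne_zero_iff.2 fun i _ => by
    have : H i ≠ 0 := by
      show K₀ ≠ 0
      omega
    exact_mod_cast this
  have hconst : ∀ c : ℂ, bxc D H (fun _ => c) = c := by
    intro c
    unfold bxc
    rw [Finset.sum_const, Fintype.card_piFinset]
    simp only [Finset.card_range, nsmul_eq_mul]
    push_cast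
    rw [← mul_assoc, inv_mul_cancel₀ hHprod, one_mul]
  -- the difference tends to zero
  have h2 : Tendsto (fun M => avZ k M a - bxc D H fun n => resAv k q M fun m => a (m + w (zc n)))
      atTop (𝓝 0) := by
    have h3 : ∀ n : Fin D → ℕ, Tendsto (fun M => avZ k M a -
        resAv k q M fun m => a (m + w (zc n))) atTop (𝓝 0) := by
      intro n
      have h4 := shift (w (zc n)) ha
      have h5 := res_diff hq (a := fun m => a (m + w (zc n))) fun m => ha _
      have h6 := h5.sub h4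
      rw [sub_zero] at h6
      refine h6.congr fun M => ?_
      ring
    have h4 : Tendsto (fun M => (∏ i, (H i : ℂ))⁻¹ *
        ∑ n ∈ Fintype.piFinset (fun i => Finset.range (H i)), (avZ k M a -
          resAv k q M fun m => a (m + w (zc n)))) atTop (𝓝 ((∏ i, (H i : ℂ))⁻¹ *
        ∑ n ∈ Fintype.piFinset (fun i => Finset.range (H i)), 0)) :=
      (tendsto_finsetSum _ fun n _ => h3 n).const_mul _
    rw [Finset.sum_const_zero, mul_zero] at h4
    refine h4.congr fun M => ?_
    have h5 := hconst (avZ k M a)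
    have h6 := Pool.Agent.W761.Box.bxc_sub D H (fun _ => avZ k M a)
      fun n => resAv k q M fun m => a (m + w (zc n))
    rw [h5] at h6
    rw [← h6]
    rfl
  -- the average over `n` of the residue averages
  have h3 : ∀ M : Fin k → ℕ, (bxc D H fun n => resAv k q M fun m => a (m + w (zc n))) =
      ((q : ℂ) ^ k)⁻¹ * ∑ r ∈ RR, avZ (k + D) (Fin.append (fun i => M i / q) H) (fun z =>
        a ((fun i => q * p1 z i + (r i : ℤ)) + w (p2 z))) := by
    intro M
    have h4 : ∀ r : Fin k → ℕ, avZ (k + D) (Fin.append (fun i => M i / q) H) (fun z =>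
        a ((fun i => q * p1 z i + (r i : ℤ)) + w (p2 z))) = bxc D H fun n =>
          avZ k (fun i => M i / q) fun m => a ((fun i => q * m i + (r i : ℤ)) + w (zc n)) := by
      intro r
      unfold avZ
      rw [bxc_append]
      congr 1
      funext n
      congr 1
      funext m
      rw [zc_append]
      have e1 : p1 (Fin.append (zc m) (zc n)) = zc m := by
        funext i
        simp [p1]
      have e2 : p2 (Fin.append (zc m) (zc n)) = zc n := by
        funext i
        simp [p2]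
      show a ((fun i => q * p1 (Fin.append (zc m) (zc n)) i + (r i : ℤ)) +
        w (p2 (Fin.append (zc m) (zc n)))) = a ((fun i => q * zc m i + (r i : ℤ)) + w (zc n))
      rw [e1, e2]
    simp only [h4]
    unfold resAv
    unfold bxc
    simp only [Finset.mul_sum]
    rw [Finset.sum_comm]
    refine Finset.sum_congr rfl fun r _ => Finset.sum_congr rfl fun n _ => ?_
    ring
  have hlarge : ∀ᶠ M : Fin k → ℕ in atTop, ∀ i, K₀ ≤ M i / q := by
    filter_upwards [eventually_ge_atTop (fun _ => q * K₀ : Fin k → ℕ)] with M hM i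
    rw [Nat.le_div_iff_mul_le hq, mul_comm]
    exact hM i
  filter_upwards [(Metric.tendsto_nhds.mp h2) (ε / 4) (by positivity), hlarge] with M hM hM'
  rw [dist_zero_right, h3] at hM
  rw [dist_eq_norm]
  have h4 : ‖((q : ℂ) ^ k)⁻¹ * ∑ r ∈ RR, avZ (k + D) (Fin.append (fun i => M i / q) H) (fun z =>
        a ((fun i => q * p1 z i + (r i : ℤ)) + w (p2 z))) -
        ((q : ℂ) ^ k)⁻¹ * ∑ r ∈ RR, L r‖ ≤ ε / 4 := by
    rw [← mul_sub, ← Finset.sum_sub_distrib, norm_mul, norm_inv, norm_pow, Complex.norm_natCast]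
    have hq' : (0 : ℝ) < (q : ℝ) ^ k := by positivity
    have h5 : ‖∑ r ∈ RR, (avZ (k + D) (Fin.append (fun i => M i / q) H) (fun z =>
        a ((fun i => q * p1 z i + (r i : ℤ)) + w (p2 z))) - L r)‖ ≤ (q : ℝ) ^ k * (ε / 4) := by
      refine (norm_sum_le _ _).trans ((Finset.sum_le_sum fun r hr => hK r _ fun i => ?_).trans
        (le_of_eq ?_))
      · have h6 : K r ≤ K₀ := (Finset.le_sup hr).trans (Nat.le_succ _)
        refine Fin.addCases (fun i => ?_) (fun i => ?_) i
        · rw [Fin.append_left]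
          exact h6.trans (hM' i)
        · rw [Fin.append_right]
          exact h6
      · rw [Finset.sum_const, nsmul_eq_mul, hRR, Fintype.card_piFinset]
        simp
    calc ((q : ℝ) ^ k)⁻¹ * _ ≤ ((q : ℝ) ^ k)⁻¹ * ((q : ℝ) ^ k * (ε / 4)) :=
          mul_le_mul_of_nonneg_left h5 (by positivity)
      _ = ε / 4 := by field_simp
  have h5 := norm_add_le (avZ k M a - ((q : ℂ) ^ k)⁻¹ * ∑ r ∈ RR,
      avZ (k + D) (Fin.append (fun i => M i / q) H) (fun z =>
        a ((fun i => q * p1 z i + (r i : ℤ)) + w (p2 z))))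
    (((q : ℂ) ^ k)⁻¹ * ∑ r ∈ RR, avZ (k + D) (Fin.append (fun i => M i / q) H) (fun z =>
        a ((fun i => q * p1 z i + (r i : ℤ)) + w (p2 z))) - ((q : ℂ) ^ k)⁻¹ * ∑ r ∈ RR, L r)
  rw [sub_add_sub_cancel] at h5
  linarith

end Pool.Agent.Helper34.FB
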