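import Pool.Agent.Helper34.FB.Inv

/-!
# Cubes and simplices along rationally independent forms
-/

set_option autoImplicit false
set_option linter.unusedSectionVars false

open MeasureTheory Filter Topology
open scoped ENNReal Matrix

universe u

noncomputable section

namespace Pool.Agent.Helper34.FB

open Pool.Agent.Y311.UB (Act act_prod cM cM_red red_comp red_conv cM_inl_mulVec cM_inr_mulVec
  prod_single)
open Pool.Agent.W761.Box (prod_zpow_add)

/-- reducible families in the sense of the library -/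
theorem univ_red {J : Type} [Fintype J] [DecidableEq J] {d k : ℕ}
    {A : J → Matrix (Fin d) (Fin k) ℤ} (hA : Pool.Agent.Y311.UB.Red A) : Univ.{u} A := by
  intro k' C hC X _ μ _ T hT b f hf
  have hact : Act μ (pw T) := act_prod hT.inverse hT.preserving hT.commute
  exact red_conv (red_comp hA hC) hact b hf

theorem surj_one (k : ℕ) : Function.Surjective (1 : Matrix (Fin k) (Fin k) ℤ).mulVec := fun y =>
  ⟨y, by simp⟩

/-- Cubes and simplices. -/
theorem cubes_rat {d k : ℕ} {X : Type u} [MeasurableSpace X] {μ : Measure X}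
    [IsProbabilityMeasure μ] {T : Fin (d + 1) → Equiv.Perm X} (hT : Sys μ T)
    {C : Matrix (Fin (d + 1)) (Fin k) ℤ}
    (hC : ∀ m : Fin (d + 1) → ℤ, ∃ q : ℕ, 0 < q ∧ ∃ y, C *ᵥ y = (q : ℤ) • m)
    (b : Fin (d + 1) → ℤ)
    {f : Fin (d + 1) → X → ℂ} (hf : ∀ j, MemLp (f j) ∞ μ) {g : Finset (Fin d) → X → ℂ}
    (hg : ∀ e, MemLp (g e) ∞ μ) :
    ∀ᵐ x ∂μ, ∃ L : ℂ, Tendsto (fun M : Fin k → ℕ => (∏ l, (M l : ℂ))⁻¹ *
      ∑ m ∈ Fintype.piFinset (fun l => Finset.Icc 1 (M l)),
        (∏ j, f j ((T j ^ ((C *ᵥ fun l => ((m l : ℕ) : ℤ)) + b) 0 *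
          (List.ofFn fun i : Fin d =>
            T i.succ ^ ((C *ᵥ fun l => ((m l : ℕ) : ℤ)) + b) i.succ).prod) x)) *
        ∏ e, g e ((List.ofFn fun i : Fin d => if i ∈ e then
            T i.succ ^ ((C *ᵥ fun l => ((m l : ℕ) : ℤ)) + b) i.succ else 1).prod x))
      atTop (𝓝 L) := by
  classical
  set F : Fin (d + 1) ⊕ Finset (Fin d) → X → ℂ := Sum.elim f g with hF
  have hFm : ∀ j, MemLp (F j) ∞ μ := by
    rintro (j | e)
    · exact hf j
    · exact hg e
  have hU : Univ.{u} (fun j => cM d j * C) := (univ_iff (cM d) C hC).1 (univ_red (cM_red d))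
  have h1 := hU k 1 (surj_one k) X μ T hT (fun j => cM d j *ᵥ b) F hFm
  filter_upwards [h1] with x hx
  obtain ⟨L, hL⟩ := hx
  refine ⟨L, hL.congr fun M => ?_⟩
  unfold avg pw
  congr 1
  refine Finset.sum_congr rfl fun m _ => ?_
  rw [Fintype.prod_sum_type]
  have hz : ∀ j, (cM d j * C * (1 : Matrix (Fin k) (Fin k) ℤ)) *ᵥ
      (fun l => ((m l : ℕ) : ℤ)) + cM d j *ᵥ b =
      cM d j *ᵥ ((C *ᵥ fun l => ((m l : ℕ) : ℤ)) + b) := by
    intro j
    rw [Matrix.mul_one, ← Matrix.mulVec_mulVec, Matrix.mulVec_add]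
  set z : Fin (d + 1) → ℤ := (C *ᵥ fun l => ((m l : ℕ) : ℤ)) + b with hzdef
  congr 1
  · refine Finset.prod_congr rfl fun j _ => ?_
    show f j _ = _
    congr 2
    rw [hz, cM_inl_mulVec, prod_zpow_add T hT.commute, prod_single]
    congr 1
    rw [List.ofFn_succ, List.prod_cons]
    simp only [Fin.cases_zero, Fin.cases_succ, zpow_zero, one_mul]
  · refine Finset.prod_congr rfl fun e _ => ?_
    show g e _ = _
    congr 2
    rw [hz, cM_inr_mulVec, List.ofFn_succ, List.prod_cons]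
    simp only [Fin.cases_zero, Fin.cases_succ, zpow_zero, one_mul]
    congr 2
    funext i
    by_cases hi : i ∈ e
    · rw [if_pos hi, if_pos hi]
    · rw [if_neg hi, if_neg hi, zpow_zero]

end Pool.Agent.Helper34.FB
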