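import Pool.Agent.Helper34.FB.Left
import Pool.Agent.Helper34.FB.Rat

/-!
# Rational configurations of degree one: assembly
-/

set_option autoImplicit false
set_option linter.unusedSectionVars false

open MeasureTheory Filter Topology
open scoped ENNReal Matrix

universe u

noncomputable section

namespace Pool.Agent.Helper34.FB

/-- an injective integer matrix has a rational left inverse -/
theorem left_inv {d d' : ℕ} {Θ : Matrix (Fin d') (Fin d) ℤ} (h : Function.Injective Θ.mulVec) :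
    ∃ (q : ℕ) (Θ' : Matrix (Fin d) (Fin d') ℤ), 0 < q ∧ Θ' * Θ = (q : ℤ) • 1 := by
  classical
  set N : Matrix (Fin d) (Fin d) ℤ := Θᵀ * Θ with hN
  have hdet : N.det ≠ 0 := by
    intro h0
    obtain ⟨v, hv, hNv⟩ := Matrix.exists_mulVec_eq_zero_iff.2 h0
    apply hv
    have h1 : (Θ *ᵥ v) ⬝ᵥ (Θ *ᵥ v) = 0 := by
      have h2 : v ⬝ᵥ (N *ᵥ v) = 0 := by
        rw [hNv, dotProduct_zero]
      rw [hN, ← Matrix.mulVec_mulVec, Matrix.dotProduct_mulVec, Matrix.vecMul_transpose] at h2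
      exact h2
    have h3 : Θ *ᵥ v = 0 := dotProduct_self_eq_zero.1 h1
    refine h ?_
    show Θ *ᵥ v = Θ *ᵥ 0
    rw [h3, Matrix.mulVec_zero]
  refine ⟨N.det.natAbs, (SignType.sign N.det : ℤ) • (N.adjugate * Θᵀ),
    Int.natAbs_pos.2 hdet, ?_⟩
  rw [Matrix.smul_mul, Matrix.mul_assoc, ← hN, Matrix.adjugate_mul, smul_smul]
  congr 1
  rw [← Int.abs_eq_natAbs]
  exact sign_mul_self N.det

/-- simple directions and surjective changes of parameters -/
theorem simple_comp {d k k' n : ℕ} {V : Fin n → Matrix (Fin d) (Fin k) ℤ}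
    (hV : ∀ m : Fin k → ℤ, ∃ q : ℕ, 0 < q ∧
      (q : ℤ) • m ∈ AddSubgroup.closure {v | Simple V v})
    {C : Matrix (Fin k) (Fin k') ℤ} (hC : Function.Surjective C.mulVec) (m : Fin k' → ℤ) :
    ∃ q : ℕ, 0 < q ∧ (q : ℤ) • m ∈ AddSubgroup.closure {v | Simple (fun j => V j * C) v} := by
  obtain ⟨q, hq, hm⟩ := hV (C *ᵥ m)
  refine ⟨q, hq, ?_⟩
  let φ : (Fin k' → ℤ) →+ (Fin k → ℤ) := C.mulVecLin.toAddMonoidHom
  have hφ : ∀ v, φ v = C *ᵥ v := fun v => rfl
  have hS : {v | Simple V v} = φ '' {v | Simple (fun j => V j * C) v} := by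
    ext v
    constructor
    · intro hv
      obtain ⟨w, hw⟩ := hC v
      refine ⟨w, ?_, hw⟩
      obtain ⟨a, ha⟩ := hv
      refine ⟨a, fun j => ?_⟩
      have h1 : (V j * C) *ᵥ w = V j *ᵥ v := by
        rw [← Matrix.mulVec_mulVec]
        congr 1
      rw [h1]
      exact ha j
    · rintro ⟨w, ⟨a, ha⟩, rfl⟩
      refine ⟨a, fun j => ?_⟩
      rw [hφ, Matrix.mulVec_mulVec]
      exact ha j
  rw [hS, ← AddMonoidHom.map_closure] at hm
  obtain ⟨y, hy, hyq⟩ := AddSubgroup.mem_map.1 hm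
  have hker : C *ᵥ ((q : ℤ) • m - y) = 0 := by
    rw [Matrix.mulVec_sub, Matrix.mulVec_smul, ← hφ y, hyq, sub_self]
  have h1 : (q : ℤ) • m - y ∈ AddSubgroup.closure {v | Simple (fun j => V j * C) v} := by
    refine AddSubgroup.subset_closure ⟨0, fun j => Or.inl ?_⟩
    show (V j * C) *ᵥ ((q : ℤ) • m - y) = 0
    rw [← Matrix.mulVec_mulVec, hker, Matrix.mulVec_zero]
  have h2 := add_mem h1 hy
  rwa [sub_add_cancel] at h2

/-- **Simple directions.** -/
theorem univ_simple {d k n : ℕ} (V : Fin n → Matrix (Fin d) (Fin k) ℤ)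
    (hV : ∀ m : Fin k → ℤ, ∃ q : ℕ, 0 < q ∧
      (q : ℤ) • m ∈ AddSubgroup.closure {v | Simple V v}) : Univ.{u} V := by
  intro k' C hC X _ μ _ T hT b f hf
  exact simple_conv hT.inverse hT.preserving hT.commute (fun j => V j * C) b
    (simple_comp hV hC) hf

/-- **Rational invariance.** -/
theorem univ_rat {J : Type} [Fintype J] {d d' k k' : ℕ} (V : J → Matrix (Fin d) (Fin k) ℤ)
    (Θ : Matrix (Fin d') (Fin d) ℤ) (hΘ : Function.Injective Θ.mulVec)
    (C : Matrix (Fin k) (Fin k') ℤ)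
    (hC : ∀ m : Fin k → ℤ, ∃ q : ℕ, 0 < q ∧ ∃ y, C *ᵥ y = (q : ℤ) • m) :
    Univ.{u} V ↔ Univ.{u} fun j => Θ * V j * C :=
  (univ_left V Θ (left_inv hΘ)).trans (univ_iff (fun j => Θ * V j) C hC)

end Pool.Agent.Helper34.FB
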