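import Pool.Agent.Helper34.FB.Calc

/-!
# Elimination for multilinear box averages: rooted forests of maps
-/

set_option autoImplicit false
set_option linter.unusedSectionVars false

open MeasureTheory Filter Topology

noncomputable section

namespace Pool.Agent.Helper34.FB

open Pool.Agent.W761.Box (bx bxc BM Good1)

variable {X : Type*} [MeasurableSpace X] {μ : Measure X} [IsProbabilityMeasure μ]
variable {G : Type*} [Group G] {k : ℕ} {Φ : G →* Equiv.Perm X}

/-- the ordered product of the `T_i ^ (m_i)`, `i ∈ A` -/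
def wd {n : ℕ} (T : Fin n → G) (A : Finset (Fin n)) (m : Fin n → ℤ) : G :=
  (List.ofFn fun i => if i ∈ A then T i ^ m i else 1).prod

theorem prod_first : ∀ {n : ℕ} (f g : Fin n → G) (j : Fin n) (t : G)
    (_ : ∀ i, i < j → f i = 1 ∧ g i = 1) (_ : ∀ i, j < i → f i = g i) (_ : f j = t * g j),
    (List.ofFn f).prod = t * (List.ofFn g).prod
  | 0, f, g, j, t, _, _, _ => j.elim0
  | n + 1, f, g, j, t, h1, h2, h3 => by
    rw [List.ofFn_succ, List.ofFn_succ, List.prod_cons, List.prod_cons]
    rcases Fin.eq_zero_or_eq_succ j with h | ⟨j', rfl⟩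
    · subst h
      rw [h3]
      have h4 : (fun i : Fin n => f i.succ) = fun i => g i.succ := by
        funext i
        exact h2 _ (Fin.succ_pos i)
      rw [h4, mul_assoc]
    · have h5 := h1 0 (Fin.succ_pos j')
      rw [h5.1, h5.2, one_mul, one_mul]
      exact prod_first (fun i => f i.succ) (fun i => g i.succ) j' t
        (fun i hi => h1 _ (Fin.succ_lt_succ_iff.2 hi)) (fun i hi => h2 _ (Fin.succ_lt_succ_iff.2 hi))
        h3

theorem wd_congr {n : ℕ} (T : Fin n → G) {A : Finset (Fin n)} {m m' : Fin n → ℤ}
    (h : ∀ i ∈ A, m i = m' i) : wd T A m = wd T A m' := by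
  unfold wd
  congr 2
  funext i
  by_cases hi : i ∈ A
  · rw [if_pos hi, if_pos hi, h i hi]
  · rw [if_neg hi, if_neg hi]

theorem wd_step {n : ℕ} (T : Fin n → G) {A : Finset (Fin n)} {j : Fin n} (hj : j ∈ A)
    (hA : ∀ i ∈ A, j ≤ i) (m : Fin n → ℤ) :
    wd T A (m + Pi.single j 1) = T j * wd T A m := by
  unfold wd
  refine prod_first _ _ j (T j) (fun i hi => ?_) (fun i hi => ?_) ?_
  · have h1 : i ∉ A := fun h => absurd (hA i h) (not_le.2 hi)
    exact ⟨if_neg h1, if_neg h1⟩
  · have h1 : (m + Pi.single j 1 : Fin n → ℤ) i = m i := by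
      simp [Pi.single_eq_of_ne hi.ne']
    rw [h1]
  · rw [if_pos hj, if_pos hj]
    simp only [Pi.add_apply, Pi.single_eq_same]
    rw [add_comm, zpow_add, zpow_one]

theorem wd_insert {n : ℕ} (T : Fin n → G) {A : Finset (Fin n)} {j : Fin n}
    (hA : ∀ i ∈ A, j < i) (m : Fin n → ℤ) :
    wd T (insert j A) m = T j ^ m j * wd T A m := by
  unfold wd
  refine prod_first _ _ j _ (fun i hi => ?_) (fun i hi => ?_) ?_
  · have h1 : i ∉ A := fun h => absurd (hA i h) (not_lt.2 hi.le)
    have h2 : i ∉ insert j A := by
      rw [Finset.mem_insert, not_or]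
      exact ⟨hi.ne, h1⟩
    exact ⟨if_neg h2, if_neg h1⟩
  · have h3 : i ∈ insert j A ↔ i ∈ A := by
      rw [Finset.mem_insert]
      exact ⟨fun h => h.resolve_left hi.ne', Or.inr⟩
    simp only [h3]
  · have h1 : j ∉ A := fun h => absurd (hA j h) (lt_irrefl _)
    rw [if_pos (Finset.mem_insert_self _ _), if_neg h1, mul_one]

theorem wd_single {n : ℕ} (T : Fin n → G) (j : Fin n) (m : Fin n → ℤ) :
    wd T {j} m = T j ^ m j := by
  have h := wd_insert T (A := ∅) (j := j) (by simp) m
  have h3 : wd T ∅ m = 1 := by
    unfold wd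
    simp
  rw [h3, mul_one] at h
  exact h

theorem wd_good (hΦ : ∀ g, MeasurePreserving (Φ g) μ μ) {n : ℕ} (T : Fin n → G)
    (A : Finset (Fin n)) : Good1 μ fun m => (Φ (wd T A (zc m)) : X → X) := by
  refine Pool.Agent.Q96.KP.good_orb hΦ (w := 1) (fun i => if i ∈ A then T i else 1) fun m => ?_
  rw [one_mul]
  unfold wd
  congr 2
  funext i
  by_cases hi : i ∈ A
  · rw [if_pos hi, if_pos hi]
    simp [zc]
  · rw [if_neg hi, if_neg hi, one_pow]

/-- A family of paths in a rooted forest: the parent of `j` is `i > j`. -/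
def Forest {n : ℕ} (A : Fin n → Finset (Fin n)) : Prop :=
  ∀ j, A j = {j} ∨ ∃ i, j < i ∧ A j = insert j (A i)

theorem Forest.mem {n : ℕ} {A : Fin n → Finset (Fin n)} (h : Forest A) (j : Fin n) : j ∈ A j := by
  rcases h j with h | ⟨i, _, h⟩
  · rw [h]
    exact Finset.mem_singleton_self j
  · rw [h]
    exact Finset.mem_insert_self j _

theorem Forest.ge {n : ℕ} {A : Fin n → Finset (Fin n)} (h : Forest A) :
    ∀ (t : ℕ) (j : Fin n), n - 1 - j.val = t → ∀ i ∈ A j, j ≤ i := by
  intro t
  induction t using Nat.strong_induction_on with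
  | _ t ih =>
    intro j hj i hi
    rcases h j with h' | ⟨l, hl, h'⟩
    · rw [h', Finset.mem_singleton] at hi
      exact hi.ge
    · rw [h', Finset.mem_insert] at hi
      rcases hi with hi | hi
      · exact hi.ge
      · have h1 := l.isLt
        have h2 : j.val < l.val := hl
        exact hl.le.trans (ih (n - 1 - l.val) (by omega) l rfl i hi)

/-- the slot of a node -/
def nd {n : ℕ} (T : Fin n → G) (A : Fin n → Finset (Fin n)) (j : Fin n) : Slot G n :=
  ⟨wd T (A j), ⊥⟩

theorem forest (hΦ : ∀ g, MeasurePreserving (Φ g) μ μ) {n : ℕ} (T : Fin n → G)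
    {A : Fin n → Finset (Fin n)} (hA : Forest A) :
    Conv μ Φ ((Finset.univ : Finset (Fin n)).val.map (nd T A)) := by
  classical
  have key : ∀ t : ℕ, t ≤ n →
      Conv μ Φ ((Finset.univ.filter fun j : Fin n => n - t ≤ j.val).val.map (nd T A)) := by
    intro t
    induction t with
    | zero =>
      intro _
      have h1 : (Finset.univ.filter fun j : Fin n => n - 0 ≤ j.val) = ∅ := by
        rw [Finset.filter_eq_empty_iff]
        intro j _
        have := j.isLt
        omega
      rw [h1]
      exact conv_nil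
    | succ t ih =>
      intro ht
      have ih' := ih (by omega)
      set B := Finset.univ.filter fun j : Fin n => n - t ≤ j.val with hB
      let j : Fin n := ⟨n - (t + 1), by omega⟩
      have hjv : j.val = n - (t + 1) := rfl
      have hjB : j ∉ B := by
        rw [hB, Finset.mem_filter]
        rintro ⟨_, h⟩
        omega
      have h1 : (Finset.univ.filter fun j : Fin n => n - (t + 1) ≤ j.val) = Finset.cons j B hjB := by
        ext i
        rw [Finset.mem_cons, hB, Finset.mem_filter, Finset.mem_filter, Fin.ext_iff]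
        simp only [Finset.mem_univ, true_and]
        omega
      rw [h1, Finset.cons_val, Multiset.map_cons]
      have hBj : ∀ i ∈ B, j < i := by
        intro i hi
        rw [hB, Finset.mem_filter] at hi
        rw [Fin.lt_def]
        omega
      have hge := fun i => hA.ge _ i rfl
      refine conv_erase hΦ (Pi.single j 1) (T j) (fun m => ?_) (fun b hb m => ?_) ?_ ?_
      · exact wd_step T (hA.mem j) (hge j) m
      · obtain ⟨i, hi, rfl⟩ := Multiset.mem_map.1 hb
        have hji := hBj i hi
        have h2 : (nd T A i).S (m + Pi.single j 1) = (nd T A i).S m := by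
          refine wd_congr T fun l hl => ?_
          have h3 : l ≠ j := (hji.trans_le (hge i l hl)).ne'
          simp [Pi.single_eq_of_ne h3]
        rw [h2, mul_inv_cancel]
        exact one_mem _
      · exact wd_good hΦ T (A j)
      · rcases hA j with h2 | ⟨i, hji, h2⟩
        · refine conv_drop hΦ 1 (fun m => ?_) ih'
          show wd T (A j) m * 1⁻¹ ∈ _
          rw [inv_one, mul_one, h2, wd_single]
          exact Subgroup.mem_sup_right (Subgroup.zpow_mem_zpowers _ _)
        · have hiB : nd T A i ∈ B.val.map (nd T A) := by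
            refine Multiset.mem_map_of_mem _ ?_
            show i ∈ B
            rw [hB, Finset.mem_filter]
            refine ⟨Finset.mem_univ _, ?_⟩
            rw [Fin.lt_def] at hji
            omega
          obtain ⟨s', hs'⟩ := Multiset.exists_cons_of_mem hiB
          rw [hs'] at ih' ⊢
          refine conv_merge hΦ (wd T (A i)) (fun m => ?_) (fun m => ?_) ?_
          · show wd T (A j) m * (wd T (A i) m)⁻¹ ∈ _
            rw [h2, wd_insert T (fun l hl => hji.trans_le (hge i l hl)), mul_inv_cancel_right]
            exact Subgroup.mem_sup_right (Subgroup.zpow_mem_zpowers _ _)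
          · show wd T (A i) m * (wd T (A i) m)⁻¹ ∈ _
            rw [mul_inv_cancel]
            exact one_mem _
          · have h4 : (⟨wd T (A i), ((nd T A j).Γ ⊓ Subgroup.centralizer {T j} ⊔
                Subgroup.zpowers (T j)) ⊓ (nd T A i).Γ⟩ : Slot G n) = nd T A i := by
              unfold nd
              simp
            refine (congrArg (fun a => Conv μ Φ (a ::ₘ s')) h4).mpr ih'
  have h := key n le_rfl
  have h2 : (Finset.univ.filter fun j : Fin n => n - n ≤ j.val) = Finset.univ := by
    rw [Finset.filter_eq_self]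
    intro j _
    omega
  rwa [h2] at h

end Pool.Agent.Helper34.FB
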