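import Pool.Agent.Helper34.FB.ForestLim

/-!
# Rooted forests of maps: final form
-/

set_option autoImplicit false
set_option linter.unusedSectionVars false

open MeasureTheory Filter Topology
open scoped ENNReal

universe u

noncomputable section

namespace Pool.Agent.Helper34.FB

open Pool.Agent.W761.Box (bx bxc BM Good1)

/-- the group of the measure preserving bijections -/
def mpG {X : Type*} [MeasurableSpace X] (μ : Measure X) : Subgroup (Equiv.Perm X) where
  carrier := {g | MeasurePreserving g μ μ ∧ MeasurePreserving (g⁻¹ : Equiv.Perm X) μ μ}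
  one_mem' := ⟨MeasurePreserving.id μ, by
    rw [inv_one]
    exact MeasurePreserving.id μ⟩
  mul_mem' := by
    rintro a b ⟨ha, ha'⟩ ⟨hb, hb'⟩
    refine ⟨?_, ?_⟩
    · exact ha.comp hb
    · rw [mul_inv_rev]
      exact hb'.comp ha'
  inv_mem' := by
    rintro a ⟨ha, ha'⟩
    refine ⟨ha', ?_⟩
    rw [inv_inv]
    exact ha

theorem wd_map {G H : Type*} [Group G] [Group H] (Φ : G →* H) {n : ℕ} (T : Fin n → G)
    (A : Finset (Fin n)) (z : Fin n → ℤ) : Φ (wd T A z) = wd (fun i => Φ (T i)) A z := by
  unfold wd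
  rw [map_list_prod, List.map_ofFn]
  congr 2
  funext i
  by_cases h : i ∈ A
  · simp [h]
  · simp [h]

/-- the product `T_j ^ (m_j) T_(p j) ^ (m_(p j)) ⋯` along the path from `j`, at most `t` factors -/
def path {G : Type*} [Group G] {n : ℕ} (T : Fin n → G) (p : Fin n → Option (Fin n))
    (m : Fin n → ℕ) : ℕ → Fin n → G
  | 0, _ => 1
  | t + 1, j => T j ^ m j * (p j).elim 1 (path T p m t)

theorem anc_ge {n : ℕ} {p : Fin n → Option (Fin n)} (hp : ∀ j i, p j = some i → j < i) :
    ∀ (t : ℕ) (j : Fin n), ∀ l ∈ anc p t j, j ≤ l := by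
  intro t
  induction t with
  | zero =>
    intro j l hl
    exact absurd hl (Finset.notMem_empty l)
  | succ t ih =>
    intro j l hl
    cases h : p j with
    | none =>
      rw [anc_succ_none h, Finset.mem_singleton] at hl
      exact hl.ge
    | some i =>
      rw [anc_succ_some h, Finset.mem_insert] at hl
      rcases hl with hl | hl
      · exact hl.ge
      · exact (hp j i h).le.trans (ih i l hl)

theorem path_eq {G : Type*} [Group G] {n : ℕ} (T : Fin n → G) {p : Fin n → Option (Fin n)}
    (hp : ∀ j i, p j = some i → j < i) (m : Fin n → ℕ) :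
    ∀ (t : ℕ) (j : Fin n), path T p m t j = wd T (anc p t j) (zc m) := by
  intro t
  induction t with
  | zero =>
    intro j
    show 1 = wd T ∅ (zc m)
    unfold wd
    simp
  | succ t ih =>
    intro j
    have hz : T j ^ m j = T j ^ (zc m j) := by
      rw [zc, zpow_natCast]
    show T j ^ m j * (p j).elim 1 (path T p m t) = _
    cases h : p j with
    | none =>
      rw [anc_succ_none h, wd_single, Option.elim_none, mul_one, hz]
    | some i =>
      rw [anc_succ_some h, wd_insert T (fun l hl => (hp j i h).trans_le (anc_ge hp t i l hl)),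
        Option.elim_some, ih i, hz]

theorem exists_means {X : Type*} [MeasurableSpace X] {μ : Measure X} [IsProbabilityMeasure μ]
    {G : Type*} [Group G] {Φ : G →* Equiv.Perm X} (hΦ : ∀ g, MeasurePreserving (Φ g) μ μ) {n : ℕ}
    (T : Fin n → G) (p : Fin n → Option (Fin n)) {f : Fin n → X → ℂ} (hf : ∀ j, BM (f j)) :
    ∃ e : Fin n → X → ℂ, (∀ j, BM (e j)) ∧
      ∀ j, ∀ᵐ x ∂μ, Tendsto (fun H : ℕ => bk (Φ (T j)) (Gt p f e j.val j) H x) atTop
        (𝓝 (e j x)) := by
  classical
  have key : ∀ t : ℕ, t ≤ n → ∃ e : Fin n → X → ℂ, (∀ j, BM (e j)) ∧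
      ∀ j : Fin n, j.val < t → ∀ᵐ x ∂μ, Tendsto (fun H : ℕ =>
        bk (Φ (T j)) (Gt p f e j.val j) H x) atTop (𝓝 (e j x)) := by
    intro t
    induction t with
    | zero =>
      intro _
      exact ⟨f, hf, fun j hj => absurd hj (Nat.not_lt_zero _)⟩
    | succ t ih =>
      intro ht
      obtain ⟨e, he, hl⟩ := ih (by omega)
      set j0 : Fin n := ⟨t, by omega⟩ with hj0
      obtain ⟨e0, he0, hl0⟩ := exists_mean (hΦ (T j0)) (Gt_BM p hf he t j0)
      have hG : ∀ j : Fin n, j.val ≤ t → Gt p f (Function.update e j0 e0) j.val j =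
          Gt p f e j.val j := by
        intro j hj
        funext x
        unfold Gt
        congr 1
        refine Finset.prod_congr rfl fun i hi => ?_
        have h1 := (Finset.mem_filter.1 hi).2.2
        have h2 : i ≠ j0 := by
          intro h3
          have h4 : i.val = t := by rw [h3]
          omega
        rw [Function.update_of_ne h2]
      refine ⟨Function.update e j0 e0, fun j => ?_, fun j hj => ?_⟩
      · by_cases h : j = j0
        · rw [h, Function.update_self]
          exact he0
        · rw [Function.update_of_ne h]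
          exact he j
      · rw [hG j (by omega)]
        by_cases h : j = j0
        · subst h
          rw [Function.update_self]
          exact hl0
        · rw [Function.update_of_ne h]
          refine hl j ?_
          have : j.val ≠ t := fun h6 => h (Fin.ext h6)
          omega
  obtain ⟨e, he, hl⟩ := key n le_rfl
  exact ⟨e, he, fun j => hl j j.isLt⟩

/-- **Forests of maps.** -/
theorem forest_final {n : ℕ} {X : Type*} [MeasurableSpace X] {μ : Measure X}
    [IsProbabilityMeasure μ] {T : Fin n → Equiv.Perm X} (hTm : ∀ i, Measurable (T i).symm)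
    (hT : ∀ i, MeasurePreserving (T i) μ μ) {p : Fin n → Option (Fin n)}
    (hp : ∀ j i, p j = some i → j < i) {f : Fin n → X → ℂ} (hf : ∀ j, MemLp (f j) ∞ μ) :
    ∃ g : Fin n → X → ℂ,
      (∀ j, g j =ᵐ[μ] μ[fun x => f j x * ∏ i ∈ Finset.univ.filter (fun i => p i = some j), g i x |
        MeasurableSpace.invariants (T j)]) ∧
      ∀ᵐ x ∂μ, Tendsto (fun M : Fin n → ℕ => (∏ l, (M l : ℂ))⁻¹ *
        ∑ m ∈ Fintype.piFinset (fun l => Finset.Icc 1 (M l)),
          ∏ j, f j (path T p m n j x)) atTop
            (𝓝 (∏ r ∈ Finset.univ.filter (fun r => p r = none), g r x)) := by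
  classical
  have hsym : ∀ i, MeasurePreserving ((T i)⁻¹ : Equiv.Perm X) μ μ := fun i => by
    let e : X ≃ᵐ X := ⟨T i, (hT i).measurable, hTm i⟩
    exact (hT i).symm e
  let Φ : mpG μ →* Equiv.Perm X := (mpG μ).subtype
  have hΦ : ∀ g, MeasurePreserving (Φ g) μ μ := fun g => g.2.1
  let T' : Fin n → mpG μ := fun i => ⟨T i, hT i, hsym i⟩
  have hT' : (fun i => Φ (T' i)) = T := rfl
  choose f' hf' hff' using fun j => Pool.Agent.Q96.KP.BM_of_memLp' (hf j)
  obtain ⟨e, he, hl⟩ := exists_means hΦ T' p hf'
  have hG : ∀ j, Gt p f' e j.val j = fun x => f' j x *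
      ∏ i ∈ Finset.univ.filter (fun i => p i = some j), e i x := by
    intro j
    funext x
    unfold Gt
    congr 2
    ext i
    rw [Finset.mem_filter, Finset.mem_filter]
    simp only [Finset.mem_univ, true_and, and_iff_left_iff_imp]
    intro h
    exact hp i j h
  refine ⟨e, fun j => ?_, ?_⟩
  · have h1 := bk_lim (hΦ (T' j)) (Gt_BM p hf' he j.val j)
    have h2 : e j =ᵐ[μ] μ[Gt p f' e j.val j | MeasurableSpace.invariants (Φ (T' j))] := by
      filter_upwards [h1, hl j] with x hx1 hx2
      exact tendsto_nhds_unique hx2 hx1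
    refine h2.trans ?_
    rw [hG]
    refine condExp_congr_ae ?_
    filter_upwards [hff' j] with x hx
    rw [hx]
  · have h1 := forest_lim hΦ T' hp hf' he hl
    have hae : ∀ᵐ x ∂μ, ∀ (j : Fin n) (z : Fin n → ℤ),
        f j (Φ (wd T' (anc p n j) z) x) = f' j (Φ (wd T' (anc p n j) z) x) := by
      rw [ae_all_iff]
      intro j
      rw [ae_all_iff]
      intro z
      exact (hΦ _).quasiMeasurePreserving.ae_eq_comp (hff' j)
    have hb' := hf'
    choose _ Cf hCf using hb'
    filter_upwards [h1, hae] with x hx1 hx2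
    have hb : ∀ m : Fin n → ℕ, ‖∏ j, f' j (Φ (wd T' (anc p n j) (zc m)) x)‖ ≤ ∏ j, |Cf j| := by
      intro m
      rw [norm_prod]
      exact Finset.prod_le_prod (fun _ _ => norm_nonneg _) fun j _ =>
        (hCf j _).trans (le_abs_self _)
    refine (Pool.Agent.Q96.KP.lim_of_bxc hb hx1).congr fun M => ?_
    unfold Pool.Agent.Q96.KP.av1
    congr 1
    refine Finset.sum_congr rfl fun m _ => Finset.prod_congr rfl fun j _ => ?_
    rw [← hx2 j (zc m), wd_map, hT', path_eq T hp]

end Pool.Agent.Helper34.FB
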