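import Pool.Agent.Helper34.FB.Lim

/-!
# Rooted forests of maps: the limit
-/

set_option autoImplicit false
set_option linter.unusedSectionVars false

open MeasureTheory Filter Topology

noncomputable section

namespace Pool.Agent.Helper34.FB

open Pool.Agent.W761.Box (bx bxc BM Good1)

/-! ## Paths -/

/-- the nodes on the path from `j` towards the root, at most `t` of them -/
def anc {n : ℕ} (p : Fin n → Option (Fin n)) : ℕ → Fin n → Finset (Fin n)
  | 0, _ => ∅
  | t + 1, j => insert j (match p j with
    | none => ∅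
    | some i => anc p t i)

theorem anc_succ_none {n : ℕ} {p : Fin n → Option (Fin n)} {t : ℕ} {j : Fin n} (h : p j = none) :
    anc p (t + 1) j = {j} := by
  rw [anc, h]
  rfl

theorem anc_succ_some {n : ℕ} {p : Fin n → Option (Fin n)} {t : ℕ} {j i : Fin n}
    (h : p j = some i) : anc p (t + 1) j = insert j (anc p t i) := by
  rw [anc, h]

theorem anc_stable {n : ℕ} {p : Fin n → Option (Fin n)} (hp : ∀ j i, p j = some i → j < i) :
    ∀ (t : ℕ) (j : Fin n), n - j.val ≤ t → anc p (t + 1) j = anc p t j := by
  intro t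
  induction t with
  | zero =>
    intro j hj
    have := j.isLt
    omega
  | succ t ih =>
    intro j hj
    cases h : p j with
    | none => rw [anc_succ_none h, anc_succ_none h]
    | some i =>
      have h1 : j.val < i.val := hp j i h
      have h2 := i.isLt
      rw [anc_succ_some h, anc_succ_some h, ih i (by omega)]

theorem anc_some {n : ℕ} {p : Fin n → Option (Fin n)} (hp : ∀ j i, p j = some i → j < i)
    {j i : Fin n} (h : p j = some i) : anc p n j = insert j (anc p n i) := by
  have h0 := j.isLt
  have h1 : j.val < i.val := hp j i h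
  obtain ⟨n', rfl⟩ : ∃ n', n = n' + 1 := ⟨n - 1, by omega⟩
  rw [anc_succ_some h, anc_stable hp n' i (by omega)]

theorem anc_none {n : ℕ} {p : Fin n → Option (Fin n)} {j : Fin n} (h : p j = none) :
    anc p n j = {j} := by
  have h0 := j.isLt
  obtain ⟨n', rfl⟩ : ∃ n', n = n' + 1 := ⟨n - 1, by omega⟩
  exact anc_succ_none h

theorem anc_forest {n : ℕ} {p : Fin n → Option (Fin n)} (hp : ∀ j i, p j = some i → j < i) :
    Forest (anc p n) := by
  intro j
  cases h : p j with
  | none => exact Or.inl (anc_none h)
  | some i => exact Or.inr ⟨i, hp j i h, anc_some hp h⟩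

/-! ## The limit -/

variable {X : Type*} [MeasurableSpace X] {μ : Measure X} [IsProbabilityMeasure μ]
variable {G : Type*} [Group G] {Φ : G →* Equiv.Perm X}

/-- the mean is invariant -/
theorem mean_inv {u : X → X} (hu : MeasurePreserving u μ μ) {f e : X → ℂ} (hf : BM f)
    (hfe : ∀ᵐ x ∂μ, Tendsto (fun H : ℕ => bk u f H x) atTop (𝓝 (e x))) :
    ∀ᵐ x ∂μ, e (u x) = e x := by
  have h1 : ∀ᵐ x ∂μ, Tendsto (fun H : ℕ => bk u f H (u x)) atTop (𝓝 (e (u x))) :=
    hu.quasiMeasurePreserving.ae hfe
  obtain ⟨_, D, hD⟩ := hf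
  filter_upwards [h1, hfe] with x hx1 hx3
  have h4 : Tendsto (fun H : ℕ => (H : ℂ)⁻¹ * (f (u^[H] x) - f x)) atTop (𝓝 0) := by
    have h5 : Tendsto (fun H : ℕ => (H : ℝ)⁻¹ * (2 * |D|)) atTop (𝓝 0) := by
      have h6 := (tendsto_inv_atTop_nhds_zero_nat (𝕜 := ℝ)).mul_const (2 * |D|)
      rwa [zero_mul] at h6
    refine squeeze_zero_norm (fun H => ?_) h5
    rw [norm_mul, norm_inv, Complex.norm_natCast]
    refine mul_le_mul_of_nonneg_left ?_ (by positivity)
    refine (norm_sub_le _ _).trans ?_
    have a1 := (hD (u^[H] x)).trans (le_abs_self _)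
    have a2 := (hD x).trans (le_abs_self _)
    linarith
  have h6 := hx3.add h4
  rw [add_zero] at h6
  refine tendsto_nhds_unique hx1 (h6.congr fun H => ?_)
  unfold bk
  rw [← mul_add]
  congr 1
  have e1 := Finset.sum_range_succ (fun n => f (u^[n] x)) H
  have e2 := Finset.sum_range_succ' (fun n => f (u^[n] x)) H
  have e3 : ∀ n, f (u^[n + 1] x) = f (u^[n] (u x)) := fun n => by
    rw [Function.iterate_succ_apply]
  simp only [e3] at e2
  simp only [Function.iterate_zero, id_eq] at e2
  linear_combination e2 - e1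

theorem mean_zpow (hΦ : ∀ g, MeasurePreserving (Φ g) μ μ) {U : G} {e : X → ℂ}
    (he : ∀ᵐ x ∂μ, e (Φ U x) = e x) (g : G) (z : ℤ) :
    ∀ᵐ x ∂μ, e (Φ (U ^ z * g) x) = e (Φ g x) := by
  have h1 : U ∈ stab μ Φ hΦ e := he
  have h2 : U ^ z ∈ stab μ Φ hΦ e := Subgroup.zpow_mem _ h1 z
  have h3 : ∀ᵐ x ∂μ, e (Φ (U ^ z) (Φ g x)) = e (Φ g x) := (hΦ g).quasiMeasurePreserving.ae h2
  filter_upwards [h3] with x hx
  rw [map_mul, Equiv.Perm.mul_apply, hx]

/-- `f_j` times the means at the children of `j` among the nodes before `t` -/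
def Gt {n : ℕ} (p : Fin n → Option (Fin n)) (f e : Fin n → X → ℂ) (t : ℕ) (j : Fin n) (x : X) :
    ℂ := f j x * ∏ i ∈ Finset.univ.filter (fun i : Fin n => p i = some j ∧ i.val < t), e i x

/-- the product at stage `t` -/
def Qt {n : ℕ} (T : Fin n → G) (Φ : G →* Equiv.Perm X) (p : Fin n → Option (Fin n))
    (f e : Fin n → X → ℂ) (t : ℕ) (m : Fin n → ℤ) (x : X) : ℂ :=
  (∏ j ∈ Finset.univ.filter (fun j : Fin n => t ≤ j.val), Gt p f e t j (Φ (wd T (anc p n j) m) x)) *
    ∏ r ∈ Finset.univ.filter (fun r : Fin n => p r = none ∧ r.val < t), e r x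

theorem Gt_BM {n : ℕ} (p : Fin n → Option (Fin n)) {f e : Fin n → X → ℂ} (hf : ∀ j, BM (f j))
    (he : ∀ j, BM (e j)) (t : ℕ) (j : Fin n) : BM (Gt p f e t j) := by
  choose hm C hC using he
  obtain ⟨hfm, D, hD⟩ := hf j
  refine ⟨hfm.mul (Finset.measurable_fun_prod _ fun i _ => hm i), |D| * ∏ i ∈
    Finset.univ.filter (fun i : Fin n => p i = some j ∧ i.val < t), |C i|, fun x => ?_⟩
  unfold Gt
  rw [norm_mul, norm_prod]
  exact mul_le_mul ((hD x).trans (le_abs_self _)) (Finset.prod_le_prod
    (fun _ _ => norm_nonneg _) fun i _ => (hC i x).trans (le_abs_self _))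
    (Finset.prod_nonneg fun _ _ => norm_nonneg _) (abs_nonneg _)

theorem stage (hΦ : ∀ g, MeasurePreserving (Φ g) μ μ) {n : ℕ} (T : Fin n → G)
    {p : Fin n → Option (Fin n)} (hp : ∀ j i, p j = some i → j < i) {f e : Fin n → X → ℂ}
    (hf : ∀ j, BM (f j)) (he : ∀ j, BM (e j))
    (hlim : ∀ j, ∀ᵐ x ∂μ, Tendsto (fun H : ℕ => bk (Φ (T j)) (Gt p f e j.val j) H x) atTop
      (𝓝 (e j x))) (t : ℕ) (ht : t < n) :
    ∀ᵐ x ∂μ, Tendsto (fun M => avZ n M (fun m => Qt T Φ p f e t m x) -
      avZ n M (fun m => Qt T Φ p f e (t + 1) m x)) atTop (𝓝 0) := by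
  classical
  set j0 : Fin n := ⟨t, ht⟩ with hj0
  have hj0v : j0.val = t := rfl
  have hforest := anc_forest hp
  have hge := fun i => hforest.ge _ i rfl
  set B := Finset.univ.filter (fun j : Fin n => t + 1 ≤ j.val) with hB
  have hjB : j0 ∉ B := by
    rw [hB, Finset.mem_filter]
    rintro ⟨_, h⟩
    omega
  have hcons : Finset.univ.filter (fun j : Fin n => t ≤ j.val) = Finset.cons j0 B hjB := by
    ext i
    rw [Finset.mem_cons, hB, Finset.mem_filter, Finset.mem_filter, Fin.ext_iff]
    simp only [Finset.mem_univ, true_and]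
    omega
  let R : (Fin n → ℤ) → X → ℂ := fun m x =>
    (∏ j ∈ B, Gt p f e t j (Φ (wd T (anc p n j) m) x)) *
      ∏ r ∈ Finset.univ.filter (fun r : Fin n => p r = none ∧ r.val < t), e r x
  have hQ : ∀ m x, Qt T Φ p f e t m x =
      Gt p f e t j0 (Φ (wd T (anc p n j0) m) x) * R m x := by
    intro m x
    unfold Qt
    rw [hcons, Finset.prod_cons, mul_assoc]
  -- bounds
  have hGB := fun j => Gt_BM p hf he t j
  choose hGm CG hCG using hGB
  have he' := he
  choose hem Ce hCe using he'
  have hRb : ∀ m x, ‖R m x‖ ≤ (∏ j ∈ B, |CG j|) *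
      ∏ r ∈ Finset.univ.filter (fun r : Fin n => p r = none ∧ r.val < t), |Ce r| := by
    intro m x
    show ‖(∏ j ∈ B, _) * ∏ r ∈ _, _‖ ≤ _
    rw [norm_mul, norm_prod, norm_prod]
    exact mul_le_mul (Finset.prod_le_prod (fun _ _ => norm_nonneg _) fun j _ =>
      (hCG j _).trans (le_abs_self _)) (Finset.prod_le_prod (fun _ _ => norm_nonneg _) fun j _ =>
      (hCe j _).trans (le_abs_self _)) (Finset.prod_nonneg fun _ _ => norm_nonneg _)
      (Finset.prod_nonneg fun _ _ => abs_nonneg _)
  have hBj : ∀ i ∈ B, j0 < i := by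
    intro i hi
    rw [hB, Finset.mem_filter] at hi
    rw [Fin.lt_def]
    omega
  have hRshift : ∀ m x, R (m + Pi.single j0 1) x = R m x := by
    intro m x
    show (∏ j ∈ B, _) * _ = (∏ j ∈ B, _) * _
    congr 1
    refine Finset.prod_congr rfl fun i hi => ?_
    have h2 : wd T (anc p n i) (m + Pi.single j0 1) = wd T (anc p n i) m := by
      refine wd_congr T fun l hl => ?_
      have h3 : l ≠ j0 := ((hBj i hi).trans_le (hge i l hl)).ne'
      simp [Pi.single_eq_of_ne h3]
    rw [h2]
  have hcore := erase_core (S := fun m => (Φ (wd T (anc p n j0) m) : X → X)) (fun m => hΦ _)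
    (wd_good hΦ T (anc p n j0)) (hΦ (T j0)) (v := Pi.single j0 1)
    (Eventually.of_forall fun x m => by
      show Φ (wd T (anc p n j0) (m + Pi.single j0 1)) x = Φ (T j0) (Φ (wd T (anc p n j0) m) x)
      rw [wd_step T (hforest.mem j0) (hge j0), map_mul, Equiv.Perm.mul_apply])
    (Gt_BM p hf he t j0) (he j0) (hlim j0) (R := R) hRb
    (Eventually.of_forall fun x m => hRshift m x)
  -- the next stage
  have hinv := mean_inv (hΦ (T j0)) (Gt_BM p hf he t j0) (hlim j0)
  have hnext : ∀ᵐ x ∂μ, ∀ m, e j0 (Φ (wd T (anc p n j0) m) x) * R m x =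
      Qt T Φ p f e (t + 1) m x := by
    cases h : p j0 with
    | none =>
      have h1 : ∀ᵐ x ∂μ, ∀ m : Fin n → ℤ, e j0 (Φ (wd T (anc p n j0) m) x) = e j0 x := by
        rw [ae_all_iff]
        intro m
        have h2 := mean_zpow hΦ hinv 1 (m j0)
        rw [anc_none h, wd_single]
        filter_upwards [h2] with x hx
        rw [mul_one] at hx
        rw [hx]
        simp
      filter_upwards [h1] with x hx m
      rw [hx]
      unfold Qt
      have hroots : Finset.univ.filter (fun r : Fin n => p r = none ∧ r.val < t + 1) =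
          Finset.cons j0 (Finset.univ.filter (fun r : Fin n => p r = none ∧ r.val < t)) (by
            rw [Finset.mem_filter]
            rintro ⟨_, _, h3⟩
            omega) := by
        ext i
        rw [Finset.mem_cons, Finset.mem_filter, Finset.mem_filter]
        simp only [Finset.mem_univ, true_and]
        constructor
        · rintro ⟨h3, h4⟩
          by_cases h5 : i = j0
          · exact Or.inl h5
          · refine Or.inr ⟨h3, ?_⟩
            have : i.val ≠ t := fun h6 => h5 (Fin.ext h6)
            omega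
        · rintro (h3 | ⟨h3, h4⟩)
          · subst h3
            exact ⟨h, by omega⟩
          · exact ⟨h3, by omega⟩
      rw [hroots, Finset.prod_cons]
      have hG : ∀ j, Gt p f e (t + 1) j = Gt p f e t j := by
        intro j
        unfold Gt
        have h5 : Finset.univ.filter (fun i : Fin n => p i = some j ∧ i.val < t + 1) =
            Finset.univ.filter (fun i : Fin n => p i = some j ∧ i.val < t) := by
          ext i
          rw [Finset.mem_filter, Finset.mem_filter]
          simp only [Finset.mem_univ, true_and]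
          constructor
          · rintro ⟨h3, h4⟩
            refine ⟨h3, ?_⟩
            have : i.val ≠ t := fun h6 => by
              have h7 : i = j0 := Fin.ext h6
              rw [h7, h] at h3
              exact absurd h3 (by simp)
            omega
          · rintro ⟨h3, h4⟩
            exact ⟨h3, by omega⟩
        rw [h5]
      simp only [hG]
      show e j0 x * ((∏ j ∈ B, _) * _) = (∏ j ∈ B, _) * (e j0 x * _)
      ring
    | some i0 =>
      have hi0 : j0 < i0 := hp j0 i0 h
      have h1 : ∀ᵐ x ∂μ, ∀ m : Fin n → ℤ, e j0 (Φ (wd T (anc p n j0) m) x) =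
          e j0 (Φ (wd T (anc p n i0) m) x) := by
        rw [ae_all_iff]
        intro m
        rw [anc_some hp h, wd_insert T (fun l hl => hi0.trans_le (hge i0 l hl))]
        exact mean_zpow hΦ hinv _ (m j0)
      filter_upwards [h1] with x hx m
      rw [hx]
      unfold Qt
      have hroots : Finset.univ.filter (fun r : Fin n => p r = none ∧ r.val < t + 1) =
          Finset.univ.filter (fun r : Fin n => p r = none ∧ r.val < t) := by
        ext i
        rw [Finset.mem_filter, Finset.mem_filter]
        simp only [Finset.mem_univ, true_and]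
        constructor
        · rintro ⟨h3, h4⟩
          refine ⟨h3, ?_⟩
          have : i.val ≠ t := fun h6 => by
            have h7 : i = j0 := Fin.ext h6
            rw [h7, h] at h3
            exact absurd h3 (by simp)
          omega
        · rintro ⟨h3, h4⟩
          exact ⟨h3, by omega⟩
      rw [hroots]
      have hi0B : i0 ∈ B := by
        rw [hB, Finset.mem_filter]
        refine ⟨Finset.mem_univ _, ?_⟩
        have : j0.val < i0.val := hi0
        omega
      have hG : ∀ j, j ≠ i0 → Gt p f e (t + 1) j = Gt p f e t j := by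
        intro j hj
        unfold Gt
        have h5 : Finset.univ.filter (fun i : Fin n => p i = some j ∧ i.val < t + 1) =
            Finset.univ.filter (fun i : Fin n => p i = some j ∧ i.val < t) := by
          ext i
          rw [Finset.mem_filter, Finset.mem_filter]
          simp only [Finset.mem_univ, true_and]
          constructor
          · rintro ⟨h3, h4⟩
            refine ⟨h3, ?_⟩
            have : i.val ≠ t := fun h6 => by
              have h7 : i = j0 := Fin.ext h6
              rw [h7, h] at h3
              exact hj (Option.some_injective _ h3).symm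
            omega
          · rintro ⟨h3, h4⟩
            exact ⟨h3, by omega⟩
        rw [h5]
      have hG0 : ∀ y, Gt p f e (t + 1) i0 y = e j0 y * Gt p f e t i0 y := by
        intro y
        unfold Gt
        have h5 : Finset.univ.filter (fun i : Fin n => p i = some i0 ∧ i.val < t + 1) =
            Finset.cons j0 (Finset.univ.filter (fun i : Fin n => p i = some i0 ∧ i.val < t)) (by
              rw [Finset.mem_filter]
              rintro ⟨_, _, h3⟩
              omega) := by
          ext i
          rw [Finset.mem_cons, Finset.mem_filter, Finset.mem_filter]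
          simp only [Finset.mem_univ, true_and]
          constructor
          · rintro ⟨h3, h4⟩
            by_cases h5 : i = j0
            · exact Or.inl h5
            · refine Or.inr ⟨h3, ?_⟩
              have : i.val ≠ t := fun h6 => h5 (Fin.ext h6)
              omega
          · rintro (h3 | ⟨h3, h4⟩)
            · subst h3
              exact ⟨h, by omega⟩
            · exact ⟨h3, by omega⟩
        rw [h5, Finset.prod_cons]
        ring
      show e j0 (Φ (wd T (anc p n i0) m) x) * ((∏ j ∈ B, _) * _) = (∏ j ∈ B, _) * _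
      rw [← Finset.mul_prod_erase B _ hi0B, ← Finset.mul_prod_erase B _ hi0B, hG0]
      have h6 : ∏ j ∈ B.erase i0, Gt p f e (t + 1) j (Φ (wd T (anc p n j) m) x) =
          ∏ j ∈ B.erase i0, Gt p f e t j (Φ (wd T (anc p n j) m) x) :=
        Finset.prod_congr rfl fun j hj => by
          rw [hG j (Finset.ne_of_mem_erase hj)]
      rw [h6]
      ring
  filter_upwards [hcore, hnext] with x hx1 hx2
  refine hx1.congr fun M => ?_
  congr 1
  · congr 1
    funext m
    exact (hQ m x).symm
  · congr 1
    funext m
    exact hx2 m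

/-- **Forests: the limit**, bounded measurable functions -/
theorem forest_lim (hΦ : ∀ g, MeasurePreserving (Φ g) μ μ) {n : ℕ} (T : Fin n → G)
    {p : Fin n → Option (Fin n)} (hp : ∀ j i, p j = some i → j < i) {f e : Fin n → X → ℂ}
    (hf : ∀ j, BM (f j)) (he : ∀ j, BM (e j))
    (hlim : ∀ j, ∀ᵐ x ∂μ, Tendsto (fun H : ℕ => bk (Φ (T j)) (Gt p f e j.val j) H x) atTop
      (𝓝 (e j x))) :
    ∀ᵐ x ∂μ, Tendsto (fun M => avZ n M (fun m => ∏ j, f j (Φ (wd T (anc p n j) m) x))) atTop
      (𝓝 (∏ r ∈ Finset.univ.filter (fun r : Fin n => p r = none), e r x)) := by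
  classical
  have key : ∀ t : ℕ, t ≤ n → ∀ᵐ x ∂μ, Tendsto (fun M => avZ n M (fun m => Qt T Φ p f e 0 m x) -
      avZ n M (fun m => Qt T Φ p f e t m x)) atTop (𝓝 0) := by
    intro t
    induction t with
    | zero =>
      intro _
      refine Eventually.of_forall fun x => ?_
      simp only [sub_self]
      exact tendsto_const_nhds
    | succ t ih =>
      intro ht
      filter_upwards [ih (by omega), stage hΦ T hp hf he hlim t (by omega)] with x hx1 hx2
      have h1 := hx1.add hx2
      rw [add_zero] at h1
      refine h1.congr fun M => ?_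
      ring
  filter_upwards [key n le_rfl] with x hx
  have h0 : ∀ m, Qt T Φ p f e 0 m x = ∏ j, f j (Φ (wd T (anc p n j) m) x) := by
    intro m
    unfold Qt Gt
    have h1 : ∀ j : Fin n, Finset.univ.filter (fun i : Fin n => p i = some j ∧ i.val < 0) = ∅ := by
      intro j
      rw [Finset.filter_eq_empty_iff]
      rintro i _ ⟨_, h⟩
      omega
    have h2 : Finset.univ.filter (fun r : Fin n => p r = none ∧ r.val < 0) = ∅ := by
      rw [Finset.filter_eq_empty_iff]
      rintro i _ ⟨_, h⟩
      omega
    have h3 : Finset.univ.filter (fun j : Fin n => 0 ≤ j.val) = Finset.univ := by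
      rw [Finset.filter_eq_self]
      intro j _
      omega
    simp only [h1, h2, h3, Finset.prod_empty, mul_one]
  have hn : ∀ m, Qt T Φ p f e n m x =
      ∏ r ∈ Finset.univ.filter (fun r : Fin n => p r = none), e r x := by
    intro m
    unfold Qt
    have h3 : Finset.univ.filter (fun j : Fin n => n ≤ j.val) = ∅ := by
      rw [Finset.filter_eq_empty_iff]
      intro j _ h
      have := j.isLt
      omega
    have h4 : Finset.univ.filter (fun r : Fin n => p r = none ∧ r.val < n) =
        Finset.univ.filter (fun r : Fin n => p r = none) := by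
      ext r
      rw [Finset.mem_filter, Finset.mem_filter]
      have := r.isLt
      tauto
    rw [h3, h4, Finset.prod_empty, one_mul]
  simp only [h0, hn] at hx
  have h5 : Tendsto (fun M : Fin n → ℕ => avZ n M fun _ =>
      ∏ r ∈ Finset.univ.filter (fun r : Fin n => p r = none), e r x) atTop
      (𝓝 (∏ r ∈ Finset.univ.filter (fun r : Fin n => p r = none), e r x)) := by
    have h6 := (avZ_one (k := n)).const_mul
      (∏ r ∈ Finset.univ.filter (fun r : Fin n => p r = none), e r x)
    rw [mul_one] at h6
    refine h6.congr fun M => ?_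
    rw [← avZ_mul]
    congr 1
    funext m
    rw [mul_one]
  have h7 := hx.add h5
  rw [zero_add] at h7
  refine h7.congr fun M => ?_
  ring

end Pool.Agent.Helper34.FB
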