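import Pool.Agent.Helper34.FB.Span

/-!
# Box averages of commuting transformations: invariance under rational changes of parameters
-/

set_option autoImplicit false
set_option linter.unusedSectionVars false

open MeasureTheory Filter Topology
open scoped ENNReal Matrix

universe u

noncomputable section

namespace Pool.Agent.Helper34.FB

open Pool.Agent.W761.Box (bx bxc BM Good1)
open Pool.Agent.Y311.UB (Act act_prod)

/-- the averages of a family -/
def avg {J X : Type*} [Fintype J] {d k : ℕ} (T : Fin d → Equiv.Perm X)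
    (V : J → Matrix (Fin d) (Fin k) ℤ) (b : J → Fin d → ℤ) (f : J → X → ℂ) (M : Fin k → ℕ)
    (x : X) : ℂ :=
  (∏ l, (M l : ℂ))⁻¹ * ∑ m ∈ Fintype.piFinset (fun l => Finset.Icc 1 (M l)),
    ∏ j, f j (pw T (V j *ᵥ (fun l => ((m l : ℕ) : ℤ)) + b j) x)

/-- a commuting measure preserving system -/
structure Sys {X : Type*} [MeasurableSpace X] (μ : Measure X) {d : ℕ} (T : Fin d → Equiv.Perm X) :
    Prop where
  inverse : ∀ i, Measurable (T i).symm
  preserving : ∀ i, MeasurePreserving (T i) μ μ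
  commute : ∀ i j, Commute (T i) (T j)

/-- almost everywhere convergence for all systems, all bounded functions, all translations, and
all surjective changes of parameters -/
def Univ {J : Type} [Fintype J] {d k : ℕ} (V : J → Matrix (Fin d) (Fin k) ℤ) : Prop :=
  ∀ (k' : ℕ) (C : Matrix (Fin k) (Fin k') ℤ), Function.Surjective C.mulVec →
    ∀ (X : Type u) [MeasurableSpace X] (μ : Measure X) [IsProbabilityMeasure μ]
      (T : Fin d → Equiv.Perm X), Sys μ T → ∀ (b : J → Fin d → ℤ) (f : J → X → ℂ),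
      (∀ j, MemLp (f j) ∞ μ) →
        ∀ᵐ x ∂μ, ∃ L : ℂ, Tendsto (fun M => avg T (fun j => V j * C) b f M x) atTop (𝓝 L)

theorem transfer {J : Type} [Fintype J] {d k E q : ℕ} (hq : 0 < q) {X : Type*} [MeasurableSpace X]
    {μ : Measure X} [IsProbabilityMeasure μ] {T : Fin d → Equiv.Perm X} (hT : Sys μ T)
    (U : J → Matrix (Fin d) (Fin k) ℤ) (b : J → Fin d → ℤ) (B : Matrix (Fin k) (Fin E) ℤ)
    (C : Matrix (Fin E) (Fin k) ℤ) (hU : ∀ j, U j * B * C = (q : ℤ) • U j) {f : J → X → ℂ}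
    (hf : ∀ j, MemLp (f j) ∞ μ)
    (hconv : ∀ (C' : Matrix (Fin E) (Fin (k + E)) ℤ), Function.Surjective C'.mulVec →
      ∀ c : J → Fin d → ℤ, ∀ᵐ x ∂μ, ∃ L : ℂ,
        Tendsto (fun P => avg T (fun j => U j * B * C') c f P x) atTop (𝓝 L)) :
    ∀ᵐ x ∂μ, ∃ L : ℂ, Tendsto (fun M => avg T U b f M x) atTop (𝓝 L) := by
  classical
  have hact : Act μ (pw T) := act_prod hT.inverse hT.preserving hT.commute
  choose g hg hfg using fun j => Pool.Agent.Q96.KP.BM_of_memLp' (hf j)
  have hae : ∀ᵐ x ∂μ, ∀ (j : J) (z : Fin d → ℤ), f j (pw T z x) = g j (pw T z x) := by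
    rw [ae_all_iff]
    intro j
    rw [ae_all_iff]
    intro z
    exact (hact.mp z).quasiMeasurePreserving.ae_eq_comp (hfg j)
  choose _ Cg hCg using hg
  have hgb : ∀ z : J → X, ‖∏ j, g j (z j)‖ ≤ ∏ j, |Cg j| := by
    intro z
    rw [norm_prod]
    exact Finset.prod_le_prod (fun _ _ => norm_nonneg _) fun j _ =>
      (hCg j _).trans (le_abs_self _)
  -- the surjective matrix
  let C' : Matrix (Fin E) (Fin (k + E)) ℤ := Matrix.of fun l i => Fin.append (C l) (Pi.single l 1) i
  have hC' : ∀ z, C' *ᵥ z = C *ᵥ p1 z + p2 z := by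
    intro z
    funext l
    rw [Matrix.mulVec, dotProduct, Fin.sum_univ_add, Pi.add_apply]
    congr 1
    · rw [Matrix.mulVec, dotProduct]
      refine Finset.sum_congr rfl fun i _ => ?_
      simp [C', p1]
    · rw [Finset.sum_eq_single l]
      · simp [C', p2]
      · intro i _ hi
        simp [C', Pi.single_eq_of_ne hi]
      · intro h
        exact absurd (Finset.mem_univ l) h
  have hsurj : Function.Surjective C'.mulVec := by
    intro y
    refine ⟨Fin.append 0 y, ?_⟩
    rw [hC']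
    have e1 : p1 (Fin.append (0 : Fin k → ℤ) y) = 0 := by
      funext i
      simp [p1]
    have e2 : p2 (Fin.append (0 : Fin k → ℤ) y) = y := by
      funext i
      simp [p2]
    rw [e1, e2, Matrix.mulVec_zero, zero_add]
  have hres : ∀ᵐ x ∂μ, ∀ r : Fin k → ℕ, ∃ L : ℂ, Tendsto (fun P =>
      avg T (fun j => U j * B * C') (fun j => U j *ᵥ (fun i => (r i : ℤ)) + b j) f P x) atTop
        (𝓝 L) := ae_all_iff.2 fun r => hconv C' hsurj _
  filter_upwards [hres, hae] with x hx hx2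
  choose L hL using hx
  have key : ∀ r : Fin k → ℕ, Tendsto (fun P => avZ (k + E) P fun z =>
      ∏ j, g j (pw T (U j *ᵥ ((fun i => (q : ℤ) * p1 z i + (r i : ℤ)) + B *ᵥ p2 z) + b j) x))
        atTop (𝓝 (L r)) := by
    intro r
    have h1 : ∀ z : Fin (k + E) → ℤ, ∀ j, U j *ᵥ ((fun i => (q : ℤ) * p1 z i + (r i : ℤ)) +
        B *ᵥ p2 z) + b j = (U j * B * C') *ᵥ z + (U j *ᵥ (fun i => (r i : ℤ)) + b j) := by
      intro z j
      have e1 : (fun i => (q : ℤ) * p1 z i + (r i : ℤ)) =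
          (q : ℤ) • p1 z + fun i => (r i : ℤ) := by
        funext i
        simp
      have e2 : (U j * B * C') *ᵥ z = (q : ℤ) • (U j *ᵥ p1 z) + U j *ᵥ (B *ᵥ p2 z) := by
        rw [← Matrix.mulVec_mulVec, hC', Matrix.mulVec_add, Matrix.mulVec_mulVec, hU,
          Matrix.smul_mulVec, Matrix.mulVec_mulVec]
      rw [e1, e2, Matrix.mulVec_add, Matrix.mulVec_add, Matrix.mulVec_smul]
      abel
    have h2 : Tendsto (fun P => Pool.Agent.Q96.KP.av1 (k + E) P fun z =>
        ∏ j, g j (pw T (U j *ᵥ ((fun i => (q : ℤ) * p1 (zc z) i + (r i : ℤ)) +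
          B *ᵥ p2 (zc z)) + b j) x)) atTop (𝓝 (L r)) := by
      refine (hL r).congr fun P => ?_
      unfold avg Pool.Agent.Q96.KP.av1
      congr 1
      refine Finset.sum_congr rfl fun z _ => Finset.prod_congr rfl fun j _ => ?_
      rw [hx2, h1]
      rfl
    exact Pool.Agent.Q96.KP.lim_of_av1 (C := ∏ j, |Cg j|) (fun z => hgb _) h2
  obtain ⟨L', hL'⟩ := doubling hq (a := fun m => ∏ j, g j (pw T (U j *ᵥ m + b j) x))
    (C := ∏ j, |Cg j|) (fun m => hgb _) (fun z => B *ᵥ z) key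
  refine ⟨L', ?_⟩
  have h3 := Pool.Agent.Q96.KP.lim_of_bxc (C := ∏ j, |Cg j|)
    (a := fun m => ∏ j, g j (pw T (U j *ᵥ zc m + b j) x)) (fun m => hgb _) hL'
  refine h3.congr fun M => ?_
  unfold avg Pool.Agent.Q96.KP.av1
  congr 1
  refine Finset.sum_congr rfl fun m _ => Finset.prod_congr rfl fun j _ => ?_
  rw [hx2]
  rfl

/-- a matrix whose image has full rank has a rational right inverse -/
theorem right_inv {k D : ℕ} {C : Matrix (Fin k) (Fin D) ℤ}
    (h : ∀ m : Fin k → ℤ, ∃ q : ℕ, 0 < q ∧ ∃ y, C *ᵥ y = (q : ℤ) • m) :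
    ∃ (q : ℕ) (C' : Matrix (Fin D) (Fin k) ℤ), 0 < q ∧ C * C' = (q : ℤ) • 1 := by
  classical
  choose q hq y hy using fun i : Fin k => h (Pi.single i 1)
  let t : Fin k → ℤ := fun i => ∏ j ∈ Finset.univ.erase i, (q j : ℤ)
  have ht : ∀ i, t i * q i = ((∏ j, q j : ℕ) : ℤ) := fun i => by
    show (∏ j ∈ Finset.univ.erase i, (q j : ℤ)) * (q i : ℤ) = _
    rw [mul_comm, Finset.mul_prod_erase _ (fun j => (q j : ℤ)) (Finset.mem_univ i)]
    push_cast
    rfl
  refine ⟨∏ j, q j, Matrix.of fun l i => t i * y i l, Finset.prod_pos fun j _ => hq j, ?_⟩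
  ext a i
  have h1 := congrFun (hy i) a
  rw [Matrix.mulVec, dotProduct] at h1
  rw [Matrix.mul_apply, Matrix.smul_apply, Matrix.one_apply, smul_eq_mul, ← ht i]
  have h2 : ∑ l, C a l * (Matrix.of fun l i => t i * y i l : Matrix (Fin D) (Fin k) ℤ) l i =
      t i * ∑ l, C a l * y i l := by
    rw [Finset.mul_sum]
    refine Finset.sum_congr rfl fun l _ => ?_
    rw [Matrix.of_apply]
    ring
  rw [h2, h1, Pi.smul_apply, Pi.single_apply, smul_eq_mul]
  ring

/-- lifting through a surjection -/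
theorem lift_mat {k k' D : ℕ} {C : Matrix (Fin k) (Fin k') ℤ} (hC : Function.Surjective C.mulVec)
    (B : Matrix (Fin k) (Fin D) ℤ) : ∃ W : Matrix (Fin k') (Fin D) ℤ, C * W = B := by
  choose y hy using fun i : Fin D => hC (fun a => B a i)
  refine ⟨Matrix.of fun l i => y i l, ?_⟩
  ext a i
  exact congrFun (hy i) a

/-- powers of the maps -/
theorem pw_smul {d : ℕ} {X : Type*} {T : Fin d → Equiv.Perm X} (q : ℕ) (z : Fin d → ℤ) :
    pw (fun i => T i ^ q) z = pw T ((q : ℤ) • z) := by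
  unfold pw
  congr 2
  funext i
  rw [Pi.smul_apply, smul_eq_mul, zpow_mul, zpow_natCast]

theorem Sys.pow {X : Type*} [MeasurableSpace X] {μ : Measure X} {d : ℕ}
    {T : Fin d → Equiv.Perm X} (hT : Sys μ T) (q : ℕ) : Sys μ (fun i => T i ^ q) := by
  have hsym : ∀ i, MeasurePreserving ((T i)⁻¹ : Equiv.Perm X) μ μ := fun i => by
    let e : X ≃ᵐ X := ⟨T i, (hT.preserving i).measurable, hT.inverse i⟩
    exact (hT.preserving i).symm e
  have hpow : ∀ (S : Equiv.Perm X), MeasurePreserving S μ μ → ∀ n : ℕ,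
      MeasurePreserving (S ^ n : Equiv.Perm X) μ μ := by
    intro S hS n
    rw [Equiv.Perm.coe_pow]
    exact hS.iterate n
  refine ⟨fun i => ?_, fun i => hpow _ (hT.preserving i) q, fun i j =>
    (hT.commute i j).pow_pow q q⟩
  have h1 := (hpow _ (hsym i) q).measurable
  rw [inv_pow] at h1
  exact h1

/-- **Rational invariance.** -/
theorem univ_iff {J : Type} [Fintype J] {d k D : ℕ} (V : J → Matrix (Fin d) (Fin k) ℤ)
    (C : Matrix (Fin k) (Fin D) ℤ)
    (hC : ∀ m : Fin k → ℤ, ∃ q : ℕ, 0 < q ∧ ∃ y, C *ᵥ y = (q : ℤ) • m) :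
    Univ.{u} V ↔ Univ.{u} fun j => V j * C := by
  obtain ⟨q, C', hq, hCC⟩ := right_inv hC
  constructor
  · intro h k' C1 hC1 X _ μ _ T hT b f hf
    obtain ⟨W, hW⟩ := lift_mat hC1 C'
    have e1 : ∀ j, V j * C * C1 * W = (q : ℤ) • V j := by
      intro j
      rw [Matrix.mul_assoc, hW, Matrix.mul_assoc, hCC, Matrix.mul_smul, Matrix.mul_one]
    refine transfer hq hT (fun j => V j * C * C1) b W (C * C1) (fun j => ?_) hf
      fun C2 hC2 c => ?_
    · rw [e1, Matrix.smul_mul, Matrix.mul_assoc]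
    · have h2 := h _ C2 hC2 X μ (fun i => T i ^ q) (hT.pow q) 0
        (fun j x => f j (pw T (c j) x)) (fun j => by
          have hact : Act μ (pw T) := act_prod hT.inverse hT.preserving hT.commute
          exact (hf j).comp_measurePreserving (hact.mp (c j)))
      filter_upwards [h2] with x hx
      obtain ⟨L, hL⟩ := hx
      refine ⟨L, hL.congr fun P => ?_⟩
      unfold avg
      congr 1
      refine Finset.sum_congr rfl fun z _ => Finset.prod_congr rfl fun j _ => ?_
      have hact : Act μ (pw T) := act_prod hT.inverse hT.preserving hT.commute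
      show f j (pw T (c j) (pw (fun i => T i ^ q) ((V j * C2) *ᵥ (fun l => ((z l : ℕ) : ℤ)) + 0)
        x)) = f j (pw T ((V j * C * C1 * W * C2) *ᵥ (fun l => ((z l : ℕ) : ℤ)) + c j) x)
      rw [pw_smul, ← hact.add_apply, e1, add_zero, Matrix.smul_mul, Matrix.smul_mulVec, add_comm]
  · intro h k' C0 hC0 X _ μ _ T hT b f hf
    obtain ⟨W, hW⟩ := lift_mat hC0 C
    have e1 : ∀ j, V j * C0 * W = V j * C := by
      intro j
      rw [Matrix.mul_assoc, hW]
    refine transfer hq hT (fun j => V j * C0) b W (C' * C0) (fun j => ?_) hf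
      fun C2 hC2 c => ?_
    · rw [e1, ← Matrix.mul_assoc, Matrix.mul_assoc (V j) C C', hCC, Matrix.mul_smul,
        Matrix.mul_one, Matrix.smul_mul]
    · simp only [e1]
      exact h _ C2 hC2 X μ T hT c f hf

end Pool.Agent.Helper34.FB
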