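import Pool.Agent.Helper34.FB.Inv

/-!
# Box averages of commuting transformations: changes of the action
-/

set_option autoImplicit false
set_option linter.unusedSectionVars false

open MeasureTheory Filter Topology
open scoped ENNReal Matrix

universe u

noncomputable section

namespace Pool.Agent.Helper34.FB

open Pool.Agent.Y311.UB (Act act_prod)

/-- recovering a homomorphism from the images of the unit vectors -/
theorem pw_of_hom {d : ℕ} {X : Type*} (Ψ : Multiplicative (Fin d → ℤ) →* Equiv.Perm X)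
    (z : Fin d → ℤ) :
    pw (fun i => Ψ (Multiplicative.ofAdd (Pi.single i 1))) z = Ψ (Multiplicative.ofAdd z) := by
  unfold pw
  have h1 : (List.ofFn fun i => Ψ (Multiplicative.ofAdd (Pi.single i (1 : ℤ))) ^ z i) =
      (List.ofFn fun i => (Multiplicative.ofAdd (Pi.single i (1 : ℤ) : Fin d → ℤ)) ^ z i).map Ψ := by
    rw [List.map_ofFn]
    congr 1
    funext i
    simp [map_zpow]
  rw [h1, ← map_list_prod, List.prod_ofFn]
  congr 1
  apply Multiplicative.toAdd.injective
  rw [toAdd_prod]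
  simp only [toAdd_zpow, toAdd_ofAdd]
  funext l
  rw [Finset.sum_apply, Finset.sum_eq_single l]
  · simp
  · intro i _ hi
    simp [Pi.single_eq_of_ne (Ne.symm hi)]
  · intro h
    exact absurd (Finset.mem_univ l) h

/-- the homomorphism of an action -/
def hom {d : ℕ} {X : Type*} [MeasurableSpace X] {μ : Measure X} {Φ : (Fin d → ℤ) → Equiv.Perm X}
    (h : Act μ Φ) : Multiplicative (Fin d → ℤ) →* Equiv.Perm X :=
  MonoidHom.mk' (fun a => Φ (Multiplicative.toAdd a)) fun a b => by
    rw [toAdd_mul, h.add]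

/-- the system of the unit vectors -/
theorem sys_of_act {d : ℕ} {X : Type*} [MeasurableSpace X] {μ : Measure X}
    {Φ : (Fin d → ℤ) → Equiv.Perm X} (h : Act μ Φ) :
    Sys μ (fun i => Φ (Pi.single i 1)) ∧ ∀ z, pw (fun i => Φ (Pi.single i 1)) z = Φ z := by
  refine ⟨⟨fun i => ?_, fun i => h.mp _, fun i j => ?_⟩, fun z => pw_of_hom (hom h) z⟩
  · have h1 : Φ (-Pi.single i 1) = (Φ (Pi.single i 1))⁻¹ := by
      rw [eq_inv_iff_mul_eq_one, ← h.add, neg_add_cancel, h.zero]
    have h2 := (h.mp (-Pi.single i 1)).measurable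
    rw [h1] at h2
    exact h2
  · show Φ _ * Φ _ = Φ _ * Φ _
    rw [← h.add, ← h.add, add_comm]

/-- **Images.** -/
theorem univ_image {J : Type} [Fintype J] {d d' k : ℕ} {V : J → Matrix (Fin d) (Fin k) ℤ}
    (Θ : Matrix (Fin d') (Fin d) ℤ) (h : Univ.{u} V) : Univ.{u} fun j => Θ * V j := by
  intro k' C hC X _ μ _ T hT b f hf
  have hact : Act μ (pw T) := act_prod hT.inverse hT.preserving hT.commute
  have hact' : Act μ (fun z : Fin d → ℤ => pw T (Θ *ᵥ z)) := by
    refine ⟨fun y z => ?_, ?_, fun z => hact.mp _⟩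
    · rw [Matrix.mulVec_add, hact.add]
    · rw [Matrix.mulVec_zero, hact.zero]
  obtain ⟨hs, hpw⟩ := sys_of_act hact'
  have h1 := h k' C hC X μ _ hs 0 (fun j x => f j (pw T (b j) x)) fun j =>
    (hf j).comp_measurePreserving (hact.mp (b j))
  filter_upwards [h1] with x hx
  obtain ⟨L, hL⟩ := hx
  refine ⟨L, hL.congr fun M => ?_⟩
  unfold avg
  congr 1
  refine Finset.sum_congr rfl fun z _ => Finset.prod_congr rfl fun j _ => ?_
  rw [hpw]
  show f j (pw T (b j) (pw T (Θ *ᵥ ((V j * C) *ᵥ (fun l => ((z l : ℕ) : ℤ)) + 0)) x)) =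
    f j (pw T ((Θ * V j * C) *ᵥ (fun l => ((z l : ℕ) : ℤ)) + b j) x)
  rw [← hact.add_apply, add_zero, Matrix.mulVec_mulVec, ← Matrix.mul_assoc, add_comm]

/-! ## Roots: the suspension -/

section susp

variable {d q : ℕ} [NeZero q] {X : Type u} [MeasurableSpace X]

/-- the carry -/
def car (q : ℕ) (z : Fin d → ℤ) (s : Fin d → ZMod q) : Fin d → ℤ :=
  fun i => (((s i).val : ℤ) + z i) / q

/-- the translation -/
def tr (q : ℕ) (z : Fin d → ℤ) (s : Fin d → ZMod q) : Fin d → ZMod q :=
  fun i => s i + ((z i : ℤ) : ZMod q)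

theorem val_tr (a : ZMod q) (n : ℤ) :
    (((a + (n : ZMod q)).val : ℕ) : ℤ) = ((a.val : ℤ) + n) % q := by
  have h1 : a + (n : ZMod q) = ((((a.val : ℤ) + n : ℤ)) : ZMod q) := by
    push_cast
    rw [ZMod.natCast_zmod_val]
  rw [h1, ZMod.val_intCast]

theorem car_add (z y : Fin d → ℤ) (s : Fin d → ZMod q) :
    car q (z + y) s = car q z (tr q y s) + car q y s := by
  have hq : (q : ℤ) ≠ 0 := by exact_mod_cast NeZero.ne q
  funext i
  simp only [car, tr, Pi.add_apply]
  rw [val_tr]
  have h1 := Int.emod_add_mul_ediv (((s i).val : ℤ) + y i) q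
  have h2 : ((s i).val : ℤ) + (z i + y i) = ((((s i).val : ℤ) + y i) % q + z i) +
      q * ((((s i).val : ℤ) + y i) / q) := by
    linarith
  rw [h2, Int.add_mul_ediv_left _ _ hq]

theorem tr_add (z y : Fin d → ℤ) (s : Fin d → ZMod q) :
    tr q (z + y) s = tr q z (tr q y s) := by
  funext i
  simp only [tr, Pi.add_apply]
  push_cast
  ring

theorem car_zero (s : Fin d → ZMod q) : car q 0 s = 0 := by
  funext i
  simp only [car, Pi.zero_apply, add_zero]
  refine Int.ediv_eq_zero_of_lt (by positivity) ?_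
  exact_mod_cast ZMod.val_lt (s i)

theorem tr_zero (s : Fin d → ZMod q) : tr q 0 s = s := by
  funext i
  simp [tr]

/-- the suspended action -/
def sus (q : ℕ) [NeZero q] (Φ : (Fin d → ℤ) → Equiv.Perm X) (z : Fin d → ℤ)
    (p : (Fin d → ZMod q) × X) : (Fin d → ZMod q) × X :=
  (tr q z p.1, Φ (car q z p.1) p.2)

theorem sus_add {μ : Measure X} {Φ : (Fin d → ℤ) → Equiv.Perm X} (h : Act μ Φ)
    (z y : Fin d → ℤ) (p : (Fin d → ZMod q) × X) :
    sus q Φ (z + y) p = sus q Φ z (sus q Φ y p) := by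
  unfold sus
  simp only
  rw [tr_add, car_add, h.add_apply]

theorem sus_zero {μ : Measure X} {Φ : (Fin d → ℤ) → Equiv.Perm X} (h : Act μ Φ)
    (p : (Fin d → ZMod q) × X) : sus q Φ 0 p = p := by
  unfold sus
  rw [tr_zero, car_zero, h.zero_apply]

/-- the suspended action by permutations -/
def susP (q : ℕ) [NeZero q] {μ : Measure X} {Φ : (Fin d → ℤ) → Equiv.Perm X} (h : Act μ Φ)
    (z : Fin d → ℤ) : Equiv.Perm ((Fin d → ZMod q) × X) where
  toFun := sus q Φ z
  invFun := sus q Φ (-z)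
  left_inv p := by rw [← sus_add h, neg_add_cancel, sus_zero h]
  right_inv p := by rw [← sus_add h, add_neg_cancel, sus_zero h]

/-- the uniform measure -/
def unif (d q : ℕ) [NeZero q] : Measure (Fin d → ZMod q) :=
  ((Fintype.card (Fin d → ZMod q) : ℝ≥0∞))⁻¹ • Measure.count

instance : IsProbabilityMeasure (unif d q) := by
  refine ⟨?_⟩
  unfold unif
  rw [Measure.smul_apply, smul_eq_mul, Measure.count_univ, ENat.card_eq_coe_fintype_card]
  refine ENNReal.inv_mul_cancel ?_ ?_
  · have h1 : Fintype.card (Fin d → ZMod q) ≠ 0 := Fintype.card_ne_zero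
    exact_mod_cast h1
  · exact ENNReal.natCast_ne_top _

theorem unif_tr (z : Fin d → ℤ) : MeasurePreserving (tr q z) (unif d q) (unif d q) := by
  have hb : Function.Bijective (tr q z : (Fin d → ZMod q) → _) := by
    refine ⟨fun a b hab => ?_, fun b => ⟨tr q (-z) b, ?_⟩⟩
    · have h1 := congrArg (tr q (-z)) hab
      rwa [← tr_add, ← tr_add, neg_add_cancel, tr_zero, tr_zero] at h1
    · rw [← tr_add, add_neg_cancel, tr_zero]
  have hm : Measurable (tr q z : (Fin d → ZMod q) → _) := measurable_of_countable _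
  have h1 : MeasurePreserving (tr q z : (Fin d → ZMod q) → _) Measure.count Measure.count := by
    refine ⟨hm, ?_⟩
    ext s hs
    rw [Measure.map_apply hm hs, Measure.count_apply (hm hs), Measure.count_apply hs]
    congr 1
    exact Set.encard_preimage_of_bijective hb s
  unfold unif
  exact h1.smul_measure _

theorem unif_ae {P : (Fin d → ZMod q) → Prop} (h : ∀ᵐ s ∂(unif d q), P s) (s : Fin d → ZMod q) :
    P s := by
  by_contra hs
  rw [ae_iff] at h
  have h1 : (unif d q) {s} ≤ (unif d q) {a | ¬ P a} := measure_mono (by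
    intro a ha
    rw [Set.mem_singleton_iff] at ha
    rw [ha]
    exact hs)
  rw [h] at h1
  unfold unif at h1
  rw [Measure.smul_apply, smul_eq_mul, Measure.count_singleton, mul_one, nonpos_iff_eq_zero,
    ENNReal.inv_eq_zero] at h1
  exact ENNReal.natCast_ne_top _ h1

theorem sus_act {μ : Measure X} [IsProbabilityMeasure μ] {Φ : (Fin d → ℤ) → Equiv.Perm X}
    (h : Act μ Φ) : Act ((unif d q).prod μ) (susP q h) := by
  refine ⟨fun a b => ?_, ?_, fun a => ?_⟩
  · ext p : 1
    exact sus_add h a b p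
  · ext p : 1
    exact sus_zero h p
  · show MeasurePreserving (sus q Φ a) ((unif d q).prod μ) ((unif d q).prod μ)
    refine MeasurePreserving.skew_product (f := tr q a) (g := fun s x => Φ (car q a s) x)
      (unif_tr a) ?_ ?_
    · exact measurable_from_prod_countable_right fun s => (h.mp (car q a s)).measurable
    · exact Eventually.of_forall fun s => (h.mp (car q a s)).map_eq

end susp

/-- **Roots.** -/
theorem univ_scale {J : Type} [Fintype J] {d k q : ℕ} (hq : 0 < q)
    {V : J → Matrix (Fin d) (Fin k) ℤ} (h : Univ.{u} fun j => (q : ℤ) • V j) : Univ.{u} V := by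
  haveI : NeZero q := ⟨hq.ne'⟩
  have hq0 : (q : ℤ) ≠ 0 := by exact_mod_cast hq.ne'
  intro k' C hC X _ μ _ T hT b f hf
  have hact : Act μ (pw T) := act_prod hT.inverse hT.preserving hT.commute
  have hsus := sus_act (q := q) hact
  obtain ⟨hs, hpw⟩ := sys_of_act hsus
  have h1 := h k' C hC ((Fin d → ZMod q) × X) ((unif d q).prod μ) _ hs
    (fun j => (q : ℤ) • b j) (fun j p => f j p.2) fun j =>
      (hf j).comp_measurePreserving measurePreserving_snd
  have h2 := unif_ae (Measure.ae_ae_of_ae_prod h1) 0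
  filter_upwards [h2] with x hx
  obtain ⟨L, hL⟩ := hx
  refine ⟨L, hL.congr fun M => ?_⟩
  unfold avg
  congr 1
  refine Finset.sum_congr rfl fun z _ => Finset.prod_congr rfl fun j _ => ?_
  rw [hpw]
  have h3 : ((q : ℤ) • V j * C) *ᵥ (fun l => ((z l : ℕ) : ℤ)) + (q : ℤ) • b j =
      (q : ℤ) • ((V j * C) *ᵥ (fun l => ((z l : ℕ) : ℤ)) + b j) := by
    rw [Matrix.smul_mul, Matrix.smul_mulVec, smul_add]
  show f j (pw T (car q (((q : ℤ) • V j * C) *ᵥ (fun l => ((z l : ℕ) : ℤ)) + (q : ℤ) • b j) 0) x) =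
    _
  rw [h3]
  congr 3
  funext i
  simp only [car, Pi.zero_apply, Pi.smul_apply, smul_eq_mul, ZMod.val_zero, Nat.cast_zero, zero_add]
  rw [Int.mul_ediv_cancel_left _ hq0]

/-- **Rational invariance, left side.** -/
theorem univ_left {J : Type} [Fintype J] {d d' k : ℕ} (V : J → Matrix (Fin d) (Fin k) ℤ)
    (Θ : Matrix (Fin d') (Fin d) ℤ) (hΘ : ∃ (q : ℕ) (Θ' : Matrix (Fin d) (Fin d') ℤ), 0 < q ∧
      Θ' * Θ = (q : ℤ) • 1) : Univ.{u} V ↔ Univ.{u} fun j => Θ * V j := by
  refine ⟨univ_image Θ, fun h => ?_⟩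
  obtain ⟨q, Θ', hq, h1⟩ := hΘ
  refine univ_scale hq ?_
  have h2 := univ_image Θ' h
  have h3 : (fun j => Θ' * (Θ * V j)) = fun j => (q : ℤ) • V j := by
    funext j
    rw [← Matrix.mul_assoc, h1, Matrix.smul_mul, Matrix.one_mul]
  rwa [h3] at h2

end Pool.Agent.Helper34.FB
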