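import Pool.Agent.Helper34.FB.Forest
import Pool.Graph.R_seed8.H165R3.BPE

/-!
# The mean of a complex function is its conditional expectation
-/

set_option autoImplicit false
set_option linter.unusedSectionVars false

open MeasureTheory Filter Topology

noncomputable section

namespace Pool.Agent.Helper34.FB

open Pool.Agent.W761.Box (BM)

theorem condExp_cast {X : Type*} {m m0 : MeasurableSpace X} (hm : m ≤ m0) {μ : Measure[m0] X}
    [IsProbabilityMeasure μ] {h : X → ℝ} (hh : Integrable h μ) :
    μ[fun x => ((h x : ℝ) : ℂ) | m] =ᵐ[μ] fun x => (((μ[h | m]) x : ℝ) : ℂ) := by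
  symm
  refine ae_eq_condExp_of_forall_setIntegral_eq hm hh.ofReal
    (fun s _ _ => (integrable_condExp (μ := μ) (m := m) (f := h)).ofReal.integrableOn) ?_ ?_
  · intro s hs _
    rw [integral_complex_ofReal, integral_complex_ofReal, setIntegral_condExp hm hh hs]
  · exact (Complex.continuous_ofReal.comp_stronglyMeasurable
      stronglyMeasurable_condExp).aestronglyMeasurable

theorem bk_lim {X : Type*} [MeasurableSpace X] {μ : Measure X} [IsProbabilityMeasure μ]
    {u : X → X} (hu : MeasurePreserving u μ μ) {f : X → ℂ} (hf : BM f) :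
    ∀ᵐ x ∂μ, Tendsto (fun H : ℕ => bk u f H x) atTop
      (𝓝 ((μ[f | MeasurableSpace.invariants u]) x)) := by
  obtain ⟨hfm, C, hC⟩ := hf
  have hre : Measurable fun x => (f x).re := Complex.measurable_re.comp hfm
  have him : Measurable fun x => (f x).im := Complex.measurable_im.comp hfm
  have hrb : ∀ x, |(f x).re| ≤ C := fun x => (Complex.abs_re_le_norm _).trans (hC x)
  have hib : ∀ x, |(f x).im| ≤ C := fun x => (Complex.abs_im_le_norm _).trans (hC x)
  have h1 := H165R3.BPE.birkhoff hu (fun x => (f x).re) hre C hrb
  have h2 := H165R3.BPE.birkhoff hu (fun x => (f x).im) him C hib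
  have i1 : Integrable (fun x => (f x).re) μ := Integrable.of_bound hre.aestronglyMeasurable C
    (Eventually.of_forall hrb)
  have i2 : Integrable (fun x => (f x).im) μ := Integrable.of_bound him.aestronglyMeasurable C
    (Eventually.of_forall hib)
  have hle := MeasurableSpace.invariants_le u
  have e1 := condExp_cast hle i1
  have e2 := condExp_cast hle i2
  have e3 : μ[f | MeasurableSpace.invariants u] =ᵐ[μ]
      μ[fun x => (((f x).re : ℝ) : ℂ) | MeasurableSpace.invariants u] +
        Complex.I • μ[fun x => (((f x).im : ℝ) : ℂ) | MeasurableSpace.invariants u] := by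
    have e4 : f = (fun x => (((f x).re : ℝ) : ℂ)) +
        Complex.I • (fun x => (((f x).im : ℝ) : ℂ)) := by
      funext x
      rw [Pi.add_apply, Pi.smul_apply, smul_eq_mul, mul_comm]
      exact (Complex.re_add_im _).symm
    conv_lhs => rw [e4]
    refine (condExp_add i1.ofReal (i2.ofReal.smul Complex.I) _).trans ?_
    filter_upwards [condExp_smul (μ := μ) Complex.I (fun x => (((f x).im : ℝ) : ℂ))
      (MeasurableSpace.invariants u)] with x hx
    rw [Pi.add_apply, Pi.add_apply, hx]
  filter_upwards [h1, h2, e1, e2, e3] with x hx1 hx2 hx3 hx4 hx5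
  rw [hx5, Pi.add_apply, Pi.smul_apply, hx3, hx4, smul_eq_mul]
  have h3 := ((Complex.continuous_ofReal.tendsto _).comp hx1).add
    (((Complex.continuous_ofReal.tendsto _).comp hx2).const_mul Complex.I)
  refine h3.congr fun H => ?_
  simp only [Function.comp_apply, bk]
  push_cast
  rw [← mul_assoc, mul_comm Complex.I, mul_assoc, ← mul_add, Finset.mul_sum,
    ← Finset.sum_add_distrib]
  congr 1
  refine Finset.sum_congr rfl fun s _ => ?_
  rw [mul_comm]
  exact Complex.re_add_im _

end Pool.Agent.Helper34.FB
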