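import Pool.Graph.R_pool_sql_team_seeded_3997aac3.Q96.KP.Fin

/-!
# Elimination for multilinear box averages: shifts of boxes
-/

set_option autoImplicit false
set_option linter.unusedSectionVars false

open MeasureTheory Filter Topology

noncomputable section

namespace Pool.Agent.Helper34.FB

open Pool.Agent.W761.Box (bx bxc BM Good1 bx_add bx_mul bx_sum bx_mono bx_abs bx_const_le
  bx_nonneg dz orb bxc_add bxc_sub bxc_mul bxc_norm bxc_bound)

/-- natural coordinates as integers -/
def zc {k : ℕ} (m : Fin k → ℕ) : Fin k → ℤ := fun i => (m i : ℤ)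

/-- the average of `F` over the box `[0, M_1) × ⋯ × [0, M_k)` -/
def avZ (k : ℕ) (M : Fin k → ℕ) (F : (Fin k → ℤ) → ℂ) : ℂ := bxc k M fun m => F (zc m)

theorem avZ_add (k : ℕ) (M : Fin k → ℕ) (F F' : (Fin k → ℤ) → ℂ) :
    avZ k M (fun m => F m + F' m) = avZ k M F + avZ k M F' := bxc_add k M _ _

theorem avZ_sub (k : ℕ) (M : Fin k → ℕ) (F F' : (Fin k → ℤ) → ℂ) :
    avZ k M (fun m => F m - F' m) = avZ k M F - avZ k M F' := bxc_sub k M _ _

theorem avZ_mul (k : ℕ) (M : Fin k → ℕ) (c : ℂ) (F : (Fin k → ℤ) → ℂ) :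
    avZ k M (fun m => c * F m) = c * avZ k M F := bxc_mul k M c _

theorem avZ_zero (k : ℕ) (M : Fin k → ℕ) : avZ k M (fun _ => 0) = 0 := by
  simp [avZ, bxc]

theorem avZ_sum (k : ℕ) (M : Fin k → ℕ) {ι : Type*} (s : Finset ι)
    (F : ι → (Fin k → ℤ) → ℂ) :
    avZ k M (fun m => ∑ i ∈ s, F i m) = ∑ i ∈ s, avZ k M (F i) := by
  classical
  induction s using Finset.induction_on with
  | empty => simp [avZ_zero]
  | insert a s ha ih =>
    simp only [Finset.sum_insert ha]
    rw [← ih, ← avZ_add]

theorem zc_add_single {k : ℕ} (m : Fin k → ℕ) (l : Fin k) :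
    zc m + Pi.single l 1 = zc (m + Pi.single l 1) := by
  funext i
  simp only [zc, Pi.add_apply]
  rcases eq_or_ne i l with h | h
  · subst h
    simp
  · simp [Pi.single_eq_of_ne h]

theorem sum_shift {k : ℕ} (l : Fin k) (M : Fin k → ℕ) (G : (Fin k → ℕ) → ℂ) :
    ∑ m ∈ Fintype.piFinset (fun i => Finset.range (M i)), G (m + Pi.single l 1) =
      ∑ m ∈ Fintype.piFinset (Function.update (fun i => Finset.range (M i)) l
        (Finset.Icc 1 (M l))), G m := by
  classical
  refine Finset.sum_nbij' (fun m => m + Pi.single l 1) (fun m => m - Pi.single l 1) ?_ ?_ ?_ ?_ ?_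
  · intro m hm
    rw [Fintype.mem_piFinset] at hm ⊢
    intro i
    have h := hm i
    rw [Finset.mem_range] at h
    rcases eq_or_ne i l with hi | hi
    · subst hi
      rw [Function.update_self, Finset.mem_Icc]
      simp only [Pi.add_apply, Pi.single_eq_same]
      omega
    · rw [Function.update_of_ne hi, Finset.mem_range]
      simp only [Pi.add_apply, Pi.single_eq_of_ne hi]
      omega
  · intro m hm
    rw [Fintype.mem_piFinset] at hm ⊢
    intro i
    have h := hm i
    rw [Finset.mem_range]
    rcases eq_or_ne i l with hi | hi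
    · subst hi
      rw [Function.update_self, Finset.mem_Icc] at h
      simp only [Pi.sub_apply, Pi.single_eq_same]
      omega
    · rw [Function.update_of_ne hi, Finset.mem_range] at h
      simp only [Pi.sub_apply, Pi.single_eq_of_ne hi]
      omega
  · intro m _
    funext i
    simp
  · intro m hm
    rw [Fintype.mem_piFinset] at hm
    funext i
    rcases eq_or_ne i l with hi | hi
    · subst hi
      have h := hm i
      rw [Function.update_self, Finset.mem_Icc] at h
      simp only [Pi.sub_apply, Pi.add_apply, Pi.single_eq_same]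
      omega
    · simp [Pi.single_eq_of_ne hi]
  · intro m _
    rfl

theorem unit_shift {k : ℕ} (l : Fin k) {F : (Fin k → ℤ) → ℂ} {C : ℝ} (hF : ∀ m, ‖F m‖ ≤ C) :
    Tendsto (fun M => avZ k M (fun m => F (m + Pi.single l 1)) - avZ k M F) atTop (𝓝 0) := by
  classical
  have hC : 0 ≤ C := (norm_nonneg _).trans (hF 0)
  have hlim : Tendsto (fun M : Fin k → ℕ => 2 * C / (M l : ℝ)) atTop (𝓝 0) := by
    refine Tendsto.div_atTop tendsto_const_nhds ?_
    exact tendsto_natCast_atTop_atTop.comp (tendsto_atTop_atTop.2 fun b => ⟨fun _ => b,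
      fun N hN => hN l⟩)
  refine squeeze_zero_norm' ?_ hlim
  refine eventually_atTop.2 ⟨fun _ => 1, fun M hM => ?_⟩
  have hM1 : ∀ i, 1 ≤ M i := hM
  set G : (Fin k → ℕ) → ℂ := fun m => F (zc m) with hG
  have hGb : ∀ m, ‖G m‖ ≤ C := fun m => hF _
  set R : Fin k → Finset ℕ := fun i => Finset.range (M i) with hR
  set I := Fintype.piFinset R with hI
  set J := Fintype.piFinset (Function.update R l (Finset.Icc 1 (M l))) with hJ
  set K := Fintype.piFinset (Function.update R l (Finset.range (M l + 1))) with hK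
  have hIK : I ⊆ K := Fintype.piFinset_subset _ _ fun i x hx => by
    rcases eq_or_ne i l with hi | hi
    · subst hi
      rw [hR, Finset.mem_range] at hx
      rw [Function.update_self, Finset.mem_range]
      omega
    · rw [Function.update_of_ne hi]
      exact hx
  have hJK : J ⊆ K := Fintype.piFinset_subset _ _ fun i x hx => by
    rcases eq_or_ne i l with hi | hi
    · subst hi
      rw [Function.update_self, Finset.mem_Icc] at hx
      rw [Function.update_self, Finset.mem_range]
      omega
    · rw [Function.update_of_ne hi] at hx ⊢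
      exact hx
  set Q : ℝ := ∏ i ∈ Finset.univ.erase l, (M i : ℝ) with hQ
  have hQpos : 0 < Q := Finset.prod_pos fun i _ => by
    have := hM1 i
    positivity
  have hMl : (0 : ℝ) < M l := by
    have := hM1 l
    positivity
  have hprod : ∏ i, (M i : ℝ) = M l * Q := (Finset.mul_prod_erase _ _ (Finset.mem_univ l)).symm
  have hcard : ∀ A : Finset ℕ, ((Fintype.piFinset (Function.update R l A)).card : ℝ) =
      A.card * Q := by
    intro A
    rw [Fintype.card_piFinset, ← Finset.mul_prod_erase _ _ (Finset.mem_univ l),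
      Function.update_self]
    push_cast
    congr 1
    refine Finset.prod_congr rfl fun i hi => ?_
    rw [Function.update_of_ne (Finset.ne_of_mem_erase hi), hR, Finset.card_range]
  have hIc : (I.card : ℝ) = M l * Q := by
    have h := hcard (R l)
    rw [Function.update_eq_self, hR, Finset.card_range] at h
    exact h
  have hJc : (J.card : ℝ) = M l * Q := by
    have h := hcard (Finset.Icc 1 (M l))
    rw [Nat.card_Icc, Nat.add_sub_cancel] at h
    exact h
  have hKc : (K.card : ℝ) = (M l + 1) * Q := by
    have h := hcard (Finset.range (M l + 1))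
    rw [Finset.card_range] at h
    rw [hK, h]
    push_cast
    ring
  have hb : ∀ T : Finset (Fin k → ℕ), ‖∑ m ∈ T, G m‖ ≤ C * T.card := by
    intro T
    refine (norm_sum_le _ _).trans ((Finset.sum_le_sum fun m _ => hGb m).trans ?_)
    rw [Finset.sum_const, nsmul_eq_mul, mul_comm]
  have h1 : ∑ m ∈ J, G m - ∑ m ∈ I, G m = ∑ m ∈ K \ I, G m - ∑ m ∈ K \ J, G m := by
    have e1 := Finset.sum_sdiff (f := G) hIK
    have e2 := Finset.sum_sdiff (f := G) hJK
    linear_combination e2 - e1
  have hc1 : ((K \ I).card : ℝ) = Q := by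
    have h2 : (K \ I).card + I.card = K.card := by
      rw [Finset.card_sdiff_of_subset hIK]
      exact Nat.sub_add_cancel (Finset.card_le_card hIK)
    have h3 : ((K \ I).card : ℝ) + I.card = K.card := by exact_mod_cast h2
    rw [hIc, hKc] at h3
    linarith
  have hc2 : ((K \ J).card : ℝ) = Q := by
    have h2 : (K \ J).card + J.card = K.card := by
      rw [Finset.card_sdiff_of_subset hJK]
      exact Nat.sub_add_cancel (Finset.card_le_card hJK)
    have h3 : ((K \ J).card : ℝ) + J.card = K.card := by exact_mod_cast h2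
    rw [hJc, hKc] at h3
    linarith
  have e : avZ k M (fun m => F (m + Pi.single l 1)) - avZ k M F = (∏ i, (M i : ℂ))⁻¹ *
      (∑ m ∈ K \ I, G m - ∑ m ∈ K \ J, G m) := by
    rw [← h1, avZ, avZ, bxc, bxc, ← mul_sub]
    congr 2
    rw [hJ, ← sum_shift]
    refine Finset.sum_congr rfl fun m _ => ?_
    rw [zc_add_single]
  rw [e, norm_mul, norm_inv, norm_prod]
  simp only [Complex.norm_natCast]
  rw [hprod]
  have hn : ‖∑ m ∈ K \ I, G m - ∑ m ∈ K \ J, G m‖ ≤ 2 * C * Q := by
    refine (norm_sub_le _ _).trans ((add_le_add (hb _) (hb _)).trans (le_of_eq ?_))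
    rw [hc1, hc2]
    ring
  calc (M l * Q)⁻¹ * ‖∑ m ∈ K \ I, G m - ∑ m ∈ K \ J, G m‖ ≤ (M l * Q)⁻¹ * (2 * C * Q) :=
        mul_le_mul_of_nonneg_left hn (by positivity)
    _ = 2 * C / (M l : ℝ) := by field_simp

/-- averages do not notice a shift -/
theorem shift {k : ℕ} (w : Fin k → ℤ) : ∀ {F : (Fin k → ℤ) → ℂ} {C : ℝ}, (∀ m, ‖F m‖ ≤ C) →
    Tendsto (fun M => avZ k M (fun m => F (m + w)) - avZ k M F) atTop (𝓝 0) := by
  let H : AddSubgroup (Fin k → ℤ) :=
    { carrier := {w | ∀ (F : (Fin k → ℤ) → ℂ) (C : ℝ), (∀ m, ‖F m‖ ≤ C) →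
        Tendsto (fun M => avZ k M (fun m => F (m + w)) - avZ k M F) atTop (𝓝 0)}
      zero_mem' := by
        intro F C _
        simp only [add_zero, sub_self]
        exact tendsto_const_nhds
      add_mem' := by
        intro a b ha hb F C hF
        have h1 := ha (fun m => F (m + b)) C fun m => hF _
        have h2 := (h1.add (hb F C hF))
        rw [add_zero] at h2
        refine h2.congr fun M => ?_
        simp only [add_assoc, sub_add_sub_cancel]
      neg_mem' := by
        intro a ha F C hF
        have h1 := (ha (fun m => F (m + -a)) C fun m => hF _).neg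
        rw [neg_zero] at h1
        refine h1.congr fun M => ?_
        simp only [add_neg_cancel_right, neg_sub] }
  have hw : w ∈ H := by
    rw [← Finset.univ_sum_single w]
    refine sum_mem fun l _ => ?_
    have h1 : (Pi.single l (w l) : Fin k → ℤ) = w l • Pi.single l (1 : ℤ) := by
      rw [← Pi.single_smul]
      simp
    rw [h1]
    have hs : (Pi.single l (1 : ℤ) : Fin k → ℤ) ∈ H := fun F C hF => unit_shift l hF
    exact zsmul_mem hs _
  intro F C hF
  exact hw F C hF

end Pool.Agent.Helper34.FB
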