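import Pool.Agent.Helper34.FB.Dbl
import Pool.Graph.R_seed8.Y311.UB.Cubes

/-!
# Box averages of commuting transformations: families with many simple directions
-/

set_option autoImplicit false
set_option linter.unusedSectionVars false

open MeasureTheory Filter Topology
open scoped ENNReal Matrix

noncomputable section

namespace Pool.Agent.Helper34.FB

open Pool.Agent.W761.Box (bx bxc BM Good1)
open Pool.Agent.Y311.UB (Red red_dir red_comp red_conv Act act_prod)

/-- the diagonal matrices of the cube -/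
def dM (D : ℕ) (e : Finset (Fin D)) : Matrix (Fin D) (Fin D) ℤ :=
  Matrix.diagonal fun l => if l ∈ e then 1 else 0

theorem dM_mulVec {D : ℕ} (e : Finset (Fin D)) (m : Fin D → ℤ) :
    dM D e *ᵥ m = fun l => if l ∈ e then m l else 0 := by
  funext l
  rw [dM, Matrix.mulVec_diagonal]
  by_cases h : l ∈ e
  · rw [if_pos h, if_pos h, one_mul]
  · rw [if_neg h, if_neg h, zero_mul]

theorem dM_single {D : ℕ} (e : Finset (Fin D)) (a : Fin D) :
    dM D e *ᵥ Pi.single a 1 = if a ∈ e then Pi.single a 1 else 0 := by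
  rw [dM_mulVec]
  funext l
  by_cases hla : l = a
  · subst hla
    by_cases h : l ∈ e
    · rw [if_pos h, if_pos h]
    · rw [if_neg h, if_neg h]
      rfl
  · rw [Pi.single_eq_of_ne hla, ite_self]
    by_cases h : a ∈ e
    · rw [if_pos h, Pi.single_eq_of_ne hla]
    · rw [if_neg h]
      rfl

theorem dM_red (D : ℕ) : Red (dM D) := by
  refine ⟨fun e : Finset (Fin D) => e.card, fun e _ => ?_⟩
  refine red_dir (r := fun e : Finset (Fin D) => e.card) (ι := {a : Fin D // a ∈ e}) (fun a => Pi.single a.1 1)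
    (fun a => Pi.single a.1 1) ?_ ?_ ?_
  · intro a b
    rw [dM_single, if_pos b.2, dotProduct_single, mul_one]
    by_cases hab : a = b
    · rw [if_pos hab, hab, Pi.single_eq_same]
    · rw [if_neg hab, Pi.single_eq_of_ne]
      intro h
      exact hab (Subtype.ext h.symm)
  · intro e' hne hr
    have hsub : ¬ e ⊆ e' := by
      intro h
      exact hne (Finset.eq_of_subset_of_card_le h hr).symm
    obtain ⟨a, ha, ha'⟩ := Finset.not_subset.mp hsub
    exact ⟨⟨a, ha⟩, by rw [dM_single, if_neg ha']⟩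
  · rintro ⟨a, ha⟩
    refine ⟨e.erase a, Finset.card_erase_lt_of_mem ha, Pi.single a 1, ?_⟩
    simp only
    rw [dM_single, if_pos ha]
    funext p l
    rw [Matrix.add_apply, Matrix.vecMulVec_apply, dM, dM, Matrix.diagonal_apply,
      Matrix.diagonal_apply, Pi.single_apply, Pi.single_apply]
    by_cases hpl : p = l
    · subst hpl
      by_cases hpa : p = a
      · subst hpa
        simp [ha]
      · simp [hpa]
    · by_cases hpa : p = a
      · subst hpa
        have : ¬ l = p := fun h => hpl h.symm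
        simp [hpl, this]
      · simp [hpl, hpa]

/-- A vector `v` is a simple direction of the family `V` if the nonzero vectors among the `V_j v`
are all equal. -/
def Simple {d k n : ℕ} (V : Fin n → Matrix (Fin d) (Fin k) ℤ) (v : Fin k → ℤ) : Prop :=
  ∃ a : Fin d → ℤ, ∀ j, V j *ᵥ v = 0 ∨ V j *ᵥ v = a

/-- `T^z` -/
def pw {d : ℕ} {X : Type*} (T : Fin d → Equiv.Perm X) (z : Fin d → ℤ) : Equiv.Perm X :=
  (List.ofFn fun i => T i ^ z i).prod

/-- the convergence theorem with explicit directions, bounded functions -/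
theorem simple_core {d k n D q : ℕ} (hq : 0 < q) {X : Type*} [MeasurableSpace X] {μ : Measure X}
    [IsProbabilityMeasure μ] {T : Fin d → Equiv.Perm X} (hTm : ∀ i, Measurable (T i).symm)
    (hT : ∀ i, MeasurePreserving (T i) μ μ) (hc : ∀ i j, Commute (T i) (T j))
    (V : Fin n → Matrix (Fin d) (Fin k) ℤ) (b : Fin n → Fin d → ℤ)
    (v : Fin D → Fin k → ℤ) (hv : ∀ l, Simple V (v l)) (C : Matrix (Fin D) (Fin k) ℤ)
    (hC : ∀ m : Fin k → ℤ, ∑ l, (C *ᵥ m) l • v l = (q : ℤ) • m)
    {f : Fin n → X → ℂ} (hf : ∀ j, BM (f j)) :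
    ∀ᵐ x ∂μ, ∃ L : ℂ, Tendsto (fun M => avZ k M fun m =>
      ∏ j, f j (pw T (V j *ᵥ m + b j) x)) atTop (𝓝 L) := by
  classical
  have hact : Act μ (pw T) := act_prod hTm hT hc
  choose a ha using hv
  let e : Fin n → Finset (Fin D) := fun j => Finset.univ.filter fun l => V j *ᵥ v l ≠ 0
  have hVv : ∀ j l, V j *ᵥ v l = if l ∈ e j then a l else 0 := by
    intro j l
    by_cases h : V j *ᵥ v l = 0
    · rw [if_neg, h]
      simp [e, h]
    · rw [if_pos]
      · exact (ha l j).resolve_left h
      · simp [e, h]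
  -- the lifted action
  let Θ : (Fin D → ℤ) → Fin d → ℤ := fun z => ∑ l, z l • a l
  have hΘ : ∀ y z, Θ (y + z) = Θ y + Θ z := by
    intro y z
    show ∑ l, (y + z) l • a l = ∑ l, y l • a l + ∑ l, z l • a l
    rw [← Finset.sum_add_distrib]
    refine Finset.sum_congr rfl fun l _ => ?_
    rw [Pi.add_apply, add_smul]
  have hact' : Act μ (fun z => pw T (Θ z)) := by
    refine ⟨fun y z => ?_, ?_, fun z => hact.mp _⟩
    · rw [hΘ, hact.add]
    · have h0 : Θ 0 = 0 := by
        show ∑ l, (0 : Fin D → ℤ) l • a l = 0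
        simp
      rw [h0, hact.zero]
  -- the surjective map
  let C' : Matrix (Fin D) (Fin (k + D)) ℤ := Matrix.of fun l i => Fin.append (C l) (Pi.single l 1) i
  have hC' : ∀ z, C' *ᵥ z = C *ᵥ p1 z + p2 z := by
    intro z
    funext l
    rw [Matrix.mulVec, dotProduct, Fin.sum_univ_add, Pi.add_apply]
    congr 1
    · rw [Matrix.mulVec, dotProduct]
      refine Finset.sum_congr rfl fun i _ => ?_
      simp [C', p1]
    · rw [Finset.sum_eq_single l]
      · simp [C', p2]
      · intro i _ hi
        simp [C', Pi.single_eq_of_ne hi]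
      · intro h
        exact absurd (Finset.mem_univ l) h
  have hsurj : Function.Surjective C'.mulVec := by
    intro y
    refine ⟨Fin.append 0 y, ?_⟩
    rw [hC']
    have e1 : p1 (Fin.append (0 : Fin k → ℤ) y) = 0 := by
      funext i
      simp [p1]
    have e2 : p2 (Fin.append (0 : Fin k → ℤ) y) = y := by
      funext i
      simp [p2]
    rw [e1, e2, Matrix.mulVec_zero, zero_add]
  have hred := red_comp (dM_red D) hsurj
  choose hfm Cf hCf using hf
  -- the functions for a residue
  have hres : ∀ r : Fin k → ℕ, ∀ᵐ x ∂μ, ∃ L : ℂ, Tendsto (fun P => avZ (k + D) P fun z =>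
      ∏ j, f j (pw T (V j *ᵥ ((fun i => (q : ℤ) * p1 z i + (r i : ℤ)) +
        ∑ l, p2 z l • v l) + b j) x)) atTop (𝓝 L) := by
    intro r
    let y : Fin n → Fin d → ℤ := fun j => V j *ᵥ (fun i => (r i : ℤ)) + b j
    let F : Finset (Fin D) → X → ℂ := fun s x => ∏ j ∈ Finset.univ.filter (fun j => e j = s),
      f j (pw T (y j) x)
    have hFm : ∀ s, MemLp (F s) ∞ μ := by
      intro s
      refine MemLp.of_bound (C := ∏ j ∈ Finset.univ.filter (fun j => e j = s), |Cf j|) ?_ ?_
      · exact (Finset.measurable_fun_prod _ fun j _ =>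
          (hfm j).comp (hact.mp (y j)).measurable).aestronglyMeasurable
      · refine Eventually.of_forall fun x => ?_
        show ‖∏ j ∈ _, _‖ ≤ _
        rw [norm_prod]
        exact Finset.prod_le_prod (fun _ _ => norm_nonneg _) fun j _ =>
          (hCf j _).trans (le_abs_self _)
    have h1 := red_conv hred hact' (fun _ => 0) hFm
    filter_upwards [h1] with x hx
    obtain ⟨L, hL⟩ := hx
    refine ⟨L, ?_⟩
    have hkey : ∀ z : Fin (k + D) → ℤ, ∏ s, F s (pw T (Θ ((dM D s * C') *ᵥ z + 0)) x) =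
        ∏ j, f j (pw T (V j *ᵥ ((fun i => (q : ℤ) * p1 z i + (r i : ℤ)) +
          ∑ l, p2 z l • v l) + b j) x) := by
      intro z
      rw [← Finset.prod_fiberwise Finset.univ e]
      refine Finset.prod_congr rfl fun s _ => ?_
      refine Finset.prod_congr rfl fun j hj => ?_
      have hjs : e j = s := (Finset.mem_filter.1 hj).2
      subst hjs
      rw [← hact.add_apply]
      congr 2
      rw [add_zero, ← Matrix.mulVec_mulVec, hC', dM_mulVec]
      have e1 : (fun i => (q : ℤ) * p1 z i + (r i : ℤ)) =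
          (q : ℤ) • p1 z + fun i => (r i : ℤ) := by
        funext i
        simp
      have e2 : V j *ᵥ ((q : ℤ) • p1 z) = ∑ l, (C *ᵥ p1 z) l • (V j *ᵥ v l) := by
        rw [← hC, Matrix.mulVec_sum]
        refine Finset.sum_congr rfl fun l _ => ?_
        rw [Matrix.mulVec_smul]
      have e3 : V j *ᵥ (∑ l, p2 z l • v l) = ∑ l, p2 z l • (V j *ᵥ v l) := by
        rw [Matrix.mulVec_sum]
        refine Finset.sum_congr rfl fun l _ => ?_
        rw [Matrix.mulVec_smul]
      have e4 : Θ (fun l => if l ∈ e j then (C *ᵥ p1 z + p2 z) l else 0) =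
          ∑ l, (C *ᵥ p1 z) l • (V j *ᵥ v l) + ∑ l, p2 z l • (V j *ᵥ v l) := by
        rw [← Finset.sum_add_distrib]
        show ∑ l, (if l ∈ e j then (C *ᵥ p1 z + p2 z) l else 0) • a l = _
        refine Finset.sum_congr rfl fun l _ => ?_
        rw [hVv]
        by_cases hl : l ∈ e j
        · rw [if_pos hl, if_pos hl, Pi.add_apply, add_smul]
        · rw [if_neg hl, if_neg hl, smul_zero, smul_zero, zero_smul, add_zero]
      rw [e4, e1, Matrix.mulVec_add, Matrix.mulVec_add, e2, e3]
      congr 1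
      show V j *ᵥ (fun i => (r i : ℤ)) + b j + _ = _
      abel
    have hb : ∀ n : Fin (k + D) → ℕ, ‖∏ s, F s (pw T (Θ ((dM D s * C') *ᵥ
        (fun l => ((n l : ℕ) : ℤ)) + 0)) x)‖ ≤ ∏ j, |Cf j| := by
      intro z
      rw [hkey, norm_prod]
      exact Finset.prod_le_prod (fun _ _ => norm_nonneg _) fun j _ =>
        (hCf j _).trans (le_abs_self _)
    have h2 := Pool.Agent.Q96.KP.lim_of_av1 hb hL
    refine h2.congr fun P => ?_
    unfold avZ
    congr 1
    funext z
    exact hkey (zc z)
  have hall : ∀ᵐ x ∂μ, ∀ r : Fin k → ℕ, ∃ L : ℂ, Tendsto (fun P => avZ (k + D) P fun z =>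
      ∏ j, f j (pw T (V j *ᵥ ((fun i => (q : ℤ) * p1 z i + (r i : ℤ)) +
        ∑ l, p2 z l • v l) + b j) x)) atTop (𝓝 L) := ae_all_iff.2 hres
  filter_upwards [hall] with x hx
  choose L hL using hx
  refine doubling hq (a := fun m => ∏ j, f j (pw T (V j *ᵥ m + b j) x))
    (C := ∏ j, |Cf j|) (fun m => ?_) (fun z => ∑ l, z l • v l) hL
  rw [norm_prod]
  exact Finset.prod_le_prod (fun _ _ => norm_nonneg _) fun j _ =>
    (hCf j _).trans (le_abs_self _)

end Pool.Agent.Helper34.FB
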