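import Pool.Agent.Helper34.FB.Simple

/-!
# Box averages of commuting transformations: simple directions of full rank
-/

set_option autoImplicit false
set_option linter.unusedSectionVars false

open MeasureTheory Filter Topology
open scoped ENNReal Matrix

noncomputable section

namespace Pool.Agent.Helper34.FB

open Pool.Agent.W761.Box (bx bxc BM Good1)
open Pool.Agent.Y311.UB (Act act_prod)

theorem closure_rep {M : Type*} [AddCommGroup M] {S : Set M} {u : M}
    (hu : u ∈ AddSubgroup.closure S) : ∃ (D : ℕ) (v : Fin D → M) (c : Fin D → ℤ),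
      (∀ l, v l ∈ S) ∧ ∑ l, c l • v l = u := by
  induction hu using AddSubgroup.closure_induction with
  | mem x hx => exact ⟨1, fun _ => x, fun _ => 1, fun _ => hx, by simp⟩
  | zero => exact ⟨0, fun l => l.elim0, fun l => l.elim0, fun l => l.elim0, by simp⟩
  | add x y _ _ hx hy =>
    obtain ⟨D, v, c, h1, h2⟩ := hx
    obtain ⟨D', v', c', h1', h2'⟩ := hy
    refine ⟨D + D', Fin.append v v', Fin.append c c', fun l => ?_, ?_⟩
    · refine Fin.addCases (fun l => ?_) (fun l => ?_) l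
      · rw [Fin.append_left]
        exact h1 l
      · rw [Fin.append_right]
        exact h1' l
    · rw [Fin.sum_univ_add]
      simp only [Fin.append_left, Fin.append_right]
      rw [h2, h2']
  | neg x _ hx =>
    obtain ⟨D, v, c, h1, h2⟩ := hx
    refine ⟨D, v, fun l => -c l, h1, ?_⟩
    simp only [neg_smul, Finset.sum_neg_distrib, h2]

theorem span_data {k : ℕ} {S : Set (Fin k → ℤ)}
    (h : ∀ m : Fin k → ℤ, ∃ q : ℕ, 0 < q ∧ (q : ℤ) • m ∈ AddSubgroup.closure S) :
    ∃ (D q : ℕ) (v : Fin D → Fin k → ℤ) (C : Matrix (Fin D) (Fin k) ℤ), 0 < q ∧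
      (∀ l, v l ∈ S) ∧ ∀ m : Fin k → ℤ, ∑ l, (C *ᵥ m) l • v l = (q : ℤ) • m := by
  classical
  choose q hq hmem using fun i : Fin k => h (Pi.single i 1)
  choose D v c hv hsum using fun i => closure_rep (hmem i)
  let t : Fin k → ℤ := fun i => ∏ j ∈ Finset.univ.erase i, (q j : ℤ)
  have ht : ∀ i, t i * q i = ((∏ j, q j : ℕ) : ℤ) := fun i => by
    show (∏ j ∈ Finset.univ.erase i, (q j : ℤ)) * (q i : ℤ) = _
    rw [mul_comm, Finset.mul_prod_erase _ (fun j => (q j : ℤ)) (Finset.mem_univ i)]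
    push_cast
    rfl
  let e := Fintype.equivFin (Σ i : Fin k, Fin (D i))
  let C : Matrix (Fin (Fintype.card (Σ i : Fin k, Fin (D i)))) (Fin k) ℤ :=
    Matrix.of fun l i => if (e.symm l).1 = i then t i * c (e.symm l).1 (e.symm l).2 else 0
  refine ⟨Fintype.card (Σ i : Fin k, Fin (D i)), ∏ j, q j,
    fun l => v (e.symm l).1 (e.symm l).2, C, Finset.prod_pos fun j _ => hq j,
    fun l => hv _ _, fun m => ?_⟩
  have hC : ∀ l, (C *ᵥ m) l = t (e.symm l).1 * c (e.symm l).1 (e.symm l).2 * m (e.symm l).1 := by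
    intro l
    rw [Matrix.mulVec, dotProduct, Finset.sum_eq_single (e.symm l).1]
    · simp [C]
    · intro i _ hi
      have : ¬ (e.symm l).1 = i := fun h => hi h.symm
      simp [C, this]
    · intro h
      exact absurd (Finset.mem_univ _) h
  simp only [hC]
  rw [Equiv.sum_comp e.symm (fun p : (Σ i : Fin k, Fin (D i)) =>
    (t p.1 * c p.1 p.2 * m p.1) • v p.1 p.2), Fintype.sum_sigma]
  have h1 : ∀ i, ∑ s, (t i * c i s * m i) • v i s =
      (((∏ j, q j : ℕ) : ℤ) * m i) • (Pi.single i 1 : Fin k → ℤ) := by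
    intro i
    have h2 : ∀ s, (t i * c i s * m i) • v i s = (t i * m i) • (c i s • v i s) := by
      intro s
      rw [smul_smul]
      congr 1
      ring
    simp only [h2]
    rw [← Finset.smul_sum, hsum, smul_smul, ← ht]
    congr 1
    ring
  simp only [h1]
  funext l
  rw [Finset.sum_apply, Finset.sum_eq_single l]
  · simp
  · intro i _ hi
    simp [Pi.single_eq_of_ne (Ne.symm hi)]
  · intro h
    exact absurd (Finset.mem_univ l) h

/-- **Simple directions of full rank.** -/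
theorem simple_conv {d k n : ℕ} {X : Type*} [MeasurableSpace X] {μ : Measure X}
    [IsProbabilityMeasure μ] {T : Fin d → Equiv.Perm X} (hTm : ∀ i, Measurable (T i).symm)
    (hT : ∀ i, MeasurePreserving (T i) μ μ) (hc : ∀ i j, Commute (T i) (T j))
    (V : Fin n → Matrix (Fin d) (Fin k) ℤ) (b : Fin n → Fin d → ℤ)
    (hV : ∀ m : Fin k → ℤ, ∃ q : ℕ, 0 < q ∧
      (q : ℤ) • m ∈ AddSubgroup.closure {v | Simple V v})
    {f : Fin n → X → ℂ} (hf : ∀ j, MemLp (f j) ∞ μ) :
    ∀ᵐ x ∂μ, ∃ L : ℂ, Tendsto (fun M : Fin k → ℕ => (∏ l, (M l : ℂ))⁻¹ *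
      ∑ m ∈ Fintype.piFinset (fun l => Finset.Icc 1 (M l)),
        ∏ j, f j (pw T (V j *ᵥ (fun l => ((m l : ℕ) : ℤ)) + b j) x)) atTop (𝓝 L) := by
  classical
  have hact : Act μ (pw T) := act_prod hTm hT hc
  obtain ⟨D, q, v, C, hq, hv, hC⟩ := span_data hV
  choose g hg hfg using fun j => Pool.Agent.Q96.KP.BM_of_memLp' (hf j)
  have h1 := simple_core hq hTm hT hc V b v hv C hC hg
  have hae : ∀ᵐ x ∂μ, ∀ (j : Fin n) (z : Fin d → ℤ), f j (pw T z x) = g j (pw T z x) := by
    rw [ae_all_iff]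
    intro j
    rw [ae_all_iff]
    intro z
    exact (hact.mp z).quasiMeasurePreserving.ae_eq_comp (hfg j)
  choose _ Cg hCg using hg
  filter_upwards [h1, hae] with x hx hx2
  obtain ⟨L, hL⟩ := hx
  refine ⟨L, ?_⟩
  have hb : ∀ m : Fin k → ℕ, ‖∏ j, g j (pw T (V j *ᵥ (zc m) + b j) x)‖ ≤ ∏ j, |Cg j| := by
    intro m
    rw [norm_prod]
    exact Finset.prod_le_prod (fun _ _ => norm_nonneg _) fun j _ =>
      (hCg j _).trans (le_abs_self _)
  refine (Pool.Agent.Q96.KP.lim_of_bxc hb hL).congr fun M => ?_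
  unfold Pool.Agent.Q96.KP.av1
  congr 1
  refine Finset.sum_congr rfl fun m _ => Finset.prod_congr rfl fun j _ => ?_
  rw [hx2]
  rfl

end Pool.Agent.Helper34.FB
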