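import Pool.Agent.Helper34.FB.Calc

/-!
# Elimination for multilinear box averages: residue classes
-/

set_option autoImplicit false
set_option linter.unusedSectionVars false

open MeasureTheory Filter Topology

noncomputable section

namespace Pool.Agent.Helper34.FB

open Pool.Agent.W761.Box (bx bxc BM Good1)

/-- sums over a box with sides divisible by `q` -/
theorem sum_residues {k q : ℕ} (hq : 0 < q) (N : Fin k → ℕ) (a : (Fin k → ℕ) → ℂ) :
    ∑ m ∈ Fintype.piFinset (fun i => Finset.range (q * N i)), a m =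
      ∑ r ∈ Fintype.piFinset (fun _ : Fin k => Finset.range q),
        ∑ n ∈ Fintype.piFinset (fun i => Finset.range (N i)), a (fun i => q * n i + r i) := by
  classical
  rw [← Finset.sum_product']
  refine Finset.sum_nbij' (fun m => (fun i => m i % q, fun i => m i / q))
    (fun p => fun i => q * p.2 i + p.1 i) ?_ ?_ ?_ ?_ ?_
  · intro m hm
    rw [Fintype.mem_piFinset] at hm
    rw [Finset.mem_product, Fintype.mem_piFinset, Fintype.mem_piFinset]
    refine ⟨fun i => ?_, fun i => ?_⟩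
    · rw [Finset.mem_range]
      exact Nat.mod_lt _ hq
    · have h := hm i
      rw [Finset.mem_range] at h ⊢
      exact Nat.div_lt_of_lt_mul h
  · intro p hp
    rw [Finset.mem_product, Fintype.mem_piFinset, Fintype.mem_piFinset] at hp
    rw [Fintype.mem_piFinset]
    intro i
    have h1 := hp.1 i
    have h2 := hp.2 i
    rw [Finset.mem_range] at h1 h2 ⊢
    have h3 : q * p.2 i + q ≤ q * N i := by
      have h4 := Nat.mul_le_mul_left q (Nat.succ_le_of_lt h2)
      rwa [Nat.mul_succ] at h4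
    omega
  · intro m _
    funext i
    exact Nat.div_add_mod _ _
  · intro p hp
    rw [Finset.mem_product, Fintype.mem_piFinset] at hp
    refine Prod.ext ?_ ?_
    · funext i
      have h1 := hp.1 i
      rw [Finset.mem_range] at h1
      show (q * p.2 i + p.1 i) % q = p.1 i
      rw [Nat.mul_add_mod, Nat.mod_eq_of_lt h1]
    · funext i
      have h1 := hp.1 i
      rw [Finset.mem_range] at h1
      show (q * p.2 i + p.1 i) / q = p.2 i
      rw [Nat.mul_add_div hq, Nat.div_eq_of_lt h1, add_zero]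
  · intro m _
    congr 1
    funext i
    exact (Nat.div_add_mod _ _).symm

theorem div_lim {k q : ℕ} (hq : 0 < q) (i : Fin k) :
    Tendsto (fun M : Fin k → ℕ => ((q * (M i / q) : ℕ) : ℝ) / (M i : ℝ)) atTop (𝓝 1) := by
  have h0 : Tendsto (fun M : Fin k → ℕ => (M i : ℝ)) atTop atTop :=
    tendsto_natCast_atTop_atTop.comp (tendsto_atTop_atTop.2 fun b => ⟨fun _ => b,
      fun N hN => hN i⟩)
  have h1 : Tendsto (fun M : Fin k → ℕ => 1 - (q : ℝ) / (M i : ℝ)) atTop (𝓝 1) := by
    have h2 := (Tendsto.div_atTop (tendsto_const_nhds (x := (q : ℝ))) h0).const_sub 1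
    simpa using h2
  refine tendsto_of_tendsto_of_tendsto_of_le_of_le' h1 tendsto_const_nhds ?_ ?_
  · filter_upwards [h0.eventually_gt_atTop 0] with M hM
    rw [le_div_iff₀ hM, sub_mul, one_mul, div_mul_cancel₀ _ hM.ne']
    have h3 : M i < q * (M i / q) + q := by
      have h4 := Nat.div_add_mod (M i) q
      have h5 := Nat.mod_lt (M i) hq
      omega
    have h6 : (M i : ℝ) < ((q * (M i / q) : ℕ) : ℝ) + q := by exact_mod_cast h3
    linarith
  · filter_upwards [h0.eventually_gt_atTop 0] with M hM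
    rw [div_le_one hM]
    exact_mod_cast Nat.mul_div_le (M i) q

/-- the limit over a box from the limits over the residue classes -/
theorem lim_residues {k q : ℕ} (hq : 0 < q) {a : (Fin k → ℤ) → ℂ} {C : ℝ} (ha : ∀ m, ‖a m‖ ≤ C)
    {L : (Fin k → ℕ) → ℂ}
    (h : ∀ r, Tendsto (fun M => avZ k M fun m => a (fun i => q * m i + (r i : ℤ))) atTop
      (𝓝 (L r))) :
    ∃ L' : ℂ, Tendsto (fun M => avZ k M a) atTop (𝓝 L') := by
  classical
  have hC : 0 ≤ C := (norm_nonneg _).trans (ha 0)
  have hq0 : (q : ℂ) ≠ 0 := by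
    have : q ≠ 0 := by omega
    exact_mod_cast this
  let D : (Fin k → ℕ) → (Fin k → ℕ) := fun M i => M i / q
  have hD : Tendsto D atTop atTop := by
    refine tendsto_atTop_atTop.2 fun b => ⟨fun i => q * b i, fun M hM i => ?_⟩
    show b i ≤ M i / q
    rw [Nat.le_div_iff_mul_le hq, mul_comm]
    exact hM i
  -- the ratio
  have hratio : Tendsto (fun M : Fin k → ℕ => ∏ i, (((q * (M i / q) : ℕ) : ℝ) / (M i : ℝ))) atTop
      (𝓝 1) := by
    have h1 := tendsto_finsetProd (Finset.univ : Finset (Fin k)) (fun i _ => div_lim hq i)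
    simpa using h1
  set RR := Fintype.piFinset (fun _ : Fin k => Finset.range q) with hRR
  -- main term
  let T : (Fin k → ℕ) → ℂ := fun M => ((∏ i, (((q * (M i / q) : ℕ) : ℝ) / (M i : ℝ)) : ℝ) : ℂ) *
    (((q : ℂ) ^ k)⁻¹ * ∑ r ∈ RR, avZ k (D M) fun m => a (fun i => q * m i + (r i : ℤ)))
  have hT : Tendsto T atTop (𝓝 (((1 : ℝ) : ℂ) * (((q : ℂ) ^ k)⁻¹ * ∑ r ∈ RR, L r))) := by
    refine ((Complex.continuous_ofReal.tendsto _).comp hratio).mul (Tendsto.const_mul _ ?_)
    exact tendsto_finsetSum _ fun r _ => (h r).comp hD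
  refine ⟨((1 : ℝ) : ℂ) * (((q : ℂ) ^ k)⁻¹ * ∑ r ∈ RR, L r), ?_⟩
  have hdiff : Tendsto (fun M => avZ k M a - T M) atTop (𝓝 0) := by
    have hlim : Tendsto (fun M : Fin k → ℕ =>
        C * (1 - ∏ i, (((q * (M i / q) : ℕ) : ℝ) / (M i : ℝ)))) atTop (𝓝 0) := by
      have h2 := (hratio.const_sub 1).const_mul C
      simpa using h2
    refine squeeze_zero_norm' ?_ hlim
    filter_upwards [eventually_ge_atTop (fun _ => q : Fin k → ℕ)] with M hM
    have hM0 : ∀ i, 0 < M i := fun i => lt_of_lt_of_le hq (hM i)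
    set b : (Fin k → ℕ) → ℂ := fun m => a (zc m) with hb
    set I := Fintype.piFinset (fun i => Finset.range (M i)) with hI
    set J := Fintype.piFinset (fun i => Finset.range (q * D M i)) with hJ
    have hJI : J ⊆ I := Fintype.piFinset_subset _ _ fun i x hx => by
      rw [Finset.mem_range] at hx ⊢
      exact hx.trans_le (Nat.mul_div_le (M i) q)
    have hpos : (0 : ℝ) < ∏ i, (M i : ℝ) := Finset.prod_pos fun i _ => by
      have := hM0 i
      positivity
    have hIc : (I.card : ℝ) = ∏ i, (M i : ℝ) := by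
      rw [hI, Fintype.card_piFinset]
      simp
    have hJc : (J.card : ℝ) = ∏ i, ((q * (M i / q) : ℕ) : ℝ) := by
      rw [hJ, Fintype.card_piFinset]
      simp [D]
    have hTeq : T M = (∏ i, (M i : ℂ))⁻¹ * ∑ m ∈ J, b m := by
      rw [hJ, sum_residues hq]
      have hDne : ∀ i, ((D M i : ℕ) : ℂ) ≠ 0 := fun i => by
        have h1 : D M i ≠ 0 := (Nat.div_pos (hM i) hq).ne'
        exact_mod_cast h1
      have hMne : ∀ i, ((M i : ℕ) : ℂ) ≠ 0 := fun i => by
        have := (hM0 i).ne'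
        exact_mod_cast this
      show ((∏ i, (((q * (M i / q) : ℕ) : ℝ) / (M i : ℝ)) : ℝ) : ℂ) *
        (((q : ℂ) ^ k)⁻¹ * ∑ r ∈ RR, avZ k (D M) fun m => a (fun i => q * m i + (r i : ℤ))) = _
      have h1 : ∀ r : Fin k → ℕ, (avZ k (D M) fun m => a (fun i => q * m i + (r i : ℤ))) =
          (∏ i, (D M i : ℂ))⁻¹ * ∑ n ∈ Fintype.piFinset (fun i => Finset.range (D M i)),
            b (fun i => q * n i + r i) := by
        intro r
        unfold avZ bxc
        congr 1
      simp only [h1]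
      rw [← Finset.mul_sum]
      push_cast
      rw [Finset.prod_div_distrib, Finset.prod_mul_distrib, Finset.prod_const, Finset.card_univ,
        Fintype.card_fin]
      have h2 : (∏ i, ((D M i : ℕ) : ℂ)) ≠ 0 := Finset.prod_ne_zero_iff.2 fun i _ => hDne i
      have h3 : (∏ i, ((M i : ℕ) : ℂ)) ≠ 0 := Finset.prod_ne_zero_iff.2 fun i _ => hMne i
      have h4 : (∏ i, ((D M i : ℕ) : ℂ)) = ∏ i, ((M i / q : ℕ) : ℂ) := rfl
      rw [h4] at h2 ⊢
      field_simp
      rfl
    rw [hTeq]
    have h5 : avZ k M a - (∏ i, (M i : ℂ))⁻¹ * ∑ m ∈ J, b m =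
        (∏ i, (M i : ℂ))⁻¹ * ∑ m ∈ I \ J, b m := by
      have h6 := Finset.sum_sdiff (f := b) hJI
      unfold avZ bxc
      rw [← mul_sub]
      congr 1
      rw [← h6]
      ring
    rw [h5, norm_mul, norm_inv, norm_prod]
    simp only [Complex.norm_natCast]
    have h7 : ‖∑ m ∈ I \ J, b m‖ ≤ C * ((∏ i, (M i : ℝ)) - ∏ i, ((q * (M i / q) : ℕ) : ℝ)) := by
      refine (norm_sum_le _ _).trans ((Finset.sum_le_sum fun m _ => ha _).trans (le_of_eq ?_))
      rw [Finset.sum_const, nsmul_eq_mul, mul_comm]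
      have h2 : (I \ J).card + J.card = I.card := by
        rw [Finset.card_sdiff_of_subset hJI]
        exact Nat.sub_add_cancel (Finset.card_le_card hJI)
      have h3 : ((I \ J).card : ℝ) + J.card = I.card := by exact_mod_cast h2
      rw [hIc, hJc] at h3
      rw [← h3]
      ring
    calc (∏ i, (M i : ℝ))⁻¹ * ‖∑ m ∈ I \ J, b m‖ ≤
        (∏ i, (M i : ℝ))⁻¹ * (C * ((∏ i, (M i : ℝ)) - ∏ i, ((q * (M i / q) : ℕ) : ℝ))) :=
          mul_le_mul_of_nonneg_left h7 (inv_pos.2 hpos).le
      _ = C * (1 - ∏ i, (((q * (M i / q) : ℕ) : ℝ) / (M i : ℝ))) := by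
          rw [Finset.prod_div_distrib]
          field_simp
  have h8 := hdiff.add hT
  rw [zero_add] at h8
  refine h8.congr fun M => ?_
  ring

variable {X : Type*} [MeasurableSpace X] {μ : Measure X} [IsProbabilityMeasure μ]
variable {G : Type*} [Group G] {k : ℕ} {Φ : G →* Equiv.Perm X}

/-- restriction of a slot to a residue class -/
def Slot.res (q : ℕ) (r : Fin k → ℤ) (a : Slot G k) : Slot G k :=
  ⟨fun m => a.S (fun i => q * m i + r i), a.Γ⟩

theorem conv_sub {q : ℕ} (hq : 0 < q) {s : Multiset (Slot G k)}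
    (h : ∀ r : Fin k → ℤ, Conv μ Φ (s.map (Slot.res q r))) : Conv μ Φ s := by
  intro F hF hA
  have h1 : ∀ᵐ x ∂μ, ∀ r : Fin k → ℕ, ∃ L : ℂ, Tendsto (fun M => avZ k M fun m =>
      pr Φ F (fun i => q * m i + (r i : ℤ)) x) atTop (𝓝 L) := by
    rw [ae_all_iff]
    intro r
    have h2 := h (fun i => (r i : ℤ)) (F.map fun p => (p.1.res q (fun i => (r i : ℤ)), p.2)) (by
      rw [Multiset.map_map, ← hF, Multiset.map_map]
      rfl) (fun p hp => by
      obtain ⟨p', hp', rfl⟩ := Multiset.mem_map.1 hp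
      exact hA p' hp')
    filter_upwards [h2] with x hx
    obtain ⟨L, hL⟩ := hx
    refine ⟨L, hL.congr fun M => ?_⟩
    congr 1
    funext m
    unfold pr
    rw [Multiset.map_map]
    rfl
  obtain ⟨C, hC⟩ := pr_bound hA
  filter_upwards [h1] with x hx
  choose L hL using hx
  exact lim_residues hq (fun m => hC m x) hL

end Pool.Agent.Helper34.FB
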